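import Pool.Agent.Helper859_AM.Scale

/-!
Bond percolation on `ℤ²`: upper bounds for all the moments of the size of the finite cluster.
-/

set_option maxHeartbeats 1000000

namespace Pool.Agent.Helper859_AM

open H31K H974 Finset MeasureTheory
open Pool.Agent.H160R2.CV (nv bx)

theorem fact_le (i : ℕ) : i.factorial ≤ 2^(2^i) := by
  induction i with
  | zero => norm_num
  | succ i ih =>
    have h1 : i + 1 ≤ 2^i := Nat.lt_two_pow_self
    have h2 : 2^i ≤ 2^(2^i) := (Nat.lt_two_pow_self).le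
    rw [Nat.factorial_succ]
    calc (i + 1) * i.factorial ≤ 2^(2^i) * 2^(2^i) := Nat.mul_le_mul (h1.trans h2) ih
      _ = 2^(2^(i + 1)) := by rw [← pow_add]; congr 1; ring

theorem summ (x : ℝ) (hx : 0 ≤ x) : Summable (fun i : ℕ => x^i * (1/2 : ℝ)^(2^i)) := by
  refine Summable.of_nonneg_of_le (fun i => by positivity) (fun i => ?_)
    (Real.summable_pow_div_factorial x)
  rw [div_eq_mul_inv (x^i)]
  apply mul_le_mul_of_nonneg_left _ (by positivity)
  rw [show (1/2 : ℝ) = 2⁻¹ by norm_num, inv_pow]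
  apply inv_anti₀
  · exact_mod_cast Nat.factorial_pos i
  · exact_mod_cast fact_le i

theorem amgm (y : ENNReal) {l : ℝ} (hl : 0 < l) :
    y ≤ ENNReal.ofReal l * y^2 + ENNReal.ofReal l⁻¹ := by
  rcases eq_or_ne y ⊤ with rfl | hy
  · have : (⊤ : ENNReal)^2 = ⊤ := by simp
    rw [this, ENNReal.mul_top (by simpa using hl)]
    simp
  · obtain ⟨z, rfl⟩ : ∃ z : NNReal, y = z := ⟨y.toNNReal, (ENNReal.coe_toNNReal hy).symm⟩
    have e1 : ((z : ENNReal)) = ENNReal.ofReal (z:ℝ) := (ENNReal.ofReal_coe_nnreal).symm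
    rw [e1, ← ENNReal.ofReal_pow (NNReal.coe_nonneg z), ← ENNReal.ofReal_mul hl.le,
      ← ENNReal.ofReal_add (by positivity) (by positivity)]
    apply ENNReal.ofReal_le_ofReal
    have hz : (0:ℝ) ≤ z := z.2
    have h1 : (z:ℝ) = l * z * l⁻¹ := by field_simp
    have h2 : 0 ≤ l * ((z:ℝ) - l⁻¹)^2 := by positivity
    have h3 : l * ((z:ℝ) - l⁻¹)^2 = l * z^2 - 2 * z + l⁻¹ := by
      field_simp
      ring
    nlinarith

theorem mem_bx_iff {M : ℕ} {x : Vtx} : x ∈ bx M ↔ nv x ≤ M := by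
  unfold bx nv
  rw [Finset.mem_product, Finset.mem_Icc, Finset.mem_Icc]
  omega

/-- A point of the cluster at distance more than `R` gives an arm. -/
theorem armE_of_mem {ω : sqLattice.edgeSet → Bool} {x : Vtx} {R : ℕ} (hx : x ∈ cluster0 ω)
    (h : R ≤ nv x) : ω ∈ ArmE R := by
  rw [armE_iff]
  have h1 : x.1 ≤ -(R:ℤ) ∨ (R:ℤ) ≤ x.1 ∨ x.2 ≤ -(R:ℤ) ∨ (R:ℤ) ≤ x.2 := by
    unfold nv at h
    rcases le_max_iff.mp h with h2 | h2
    · omega
    · omega
  obtain ⟨w, k1, k2, k3⟩ := first_exit (a := -R) (b := R) (c := -R) (d := R)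
      (by unfold inR; simp) (t10_reach hx) h1
  exact ⟨w, ⟨k1, k2⟩, k3⟩

theorem nD_card (D : Finset Vtx) (ω : sqLattice.edgeSet → Bool) (h : cluster0 ω ⊆ ↑D) :
    ((cluster0 ω).encard : ENNReal) ≤ nD D ω := by
  classical
  have e : nD D ω = ((D.filter (fun x => x ∈ cluster0 ω)).card : ENNReal) := by
    unfold nD
    rw [Finset.card_filter]
    push_cast
    apply Finset.sum_congr rfl
    intro x _
    rw [Set.indicator_apply]
    rfl
  have h2 : cluster0 ω ⊆ (↑(D.filter (fun x => x ∈ cluster0 ω)) : Set Vtx) := by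
    intro x hx
    rw [Finset.mem_coe, Finset.mem_filter]
    exact ⟨h hx, hx⟩
  have h4 := Set.encard_le_encard h2
  rw [Set.encard_coe_eq_coe_finsetCard] at h4
  rw [e]
  have h5 := ENat.toENNReal_le.mpr h4
  simpa using h5

/-- The radii. -/
def RR' (N i : ℕ) : ℕ := 2 * (2^(i + 1) * N)

theorem RR'_mono (N : ℕ) {i j : ℕ} (h : i ≤ j) : RR' N i ≤ RR' N j := by
  unfold RR'
  apply Nat.mul_le_mul_left
  apply Nat.mul_le_mul_right
  exact Nat.pow_le_pow_right (by norm_num) (by omega)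

/-- The decomposition according to the radius of the cluster. -/
theorem decomp {N : ℕ} (hN : 1 ≤ N) (k : ℕ) (ω : sqLattice.edgeSet → Bool) :
    Set.indicator {ω | (cluster0 ω).Finite}
      (fun ω => ((cluster0 ω).encard : ENNReal)^k) ω ≤ nD (bx (RR' N 0)) ω ^ k +
      ∑' i : ℕ, nD (bx (RR' N (i + 1))) ω ^ k *
        Set.indicator (ArmE (2 * (2^(i + 1) * N)) ∩ {ω | (cluster0 ω).Finite})
          (fun _ => (1 : ENNReal)) ω := by
  by_cases hfin : (cluster0 ω).Finite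
  swap
  · rw [Set.indicator_of_notMem (show ω ∉ {ω | (cluster0 ω).Finite} from hfin)]
    exact zero_le
  · rw [Set.indicator_of_mem (show ω ∈ {ω | (cluster0 ω).Finite} from hfin)]
    have hex : ∃ i : ℕ, cluster0 ω ⊆ ↑(bx (RR' N i)) := by
      obtain ⟨b, hb⟩ := (hfin.image nv).bddAbove
      refine ⟨b, fun x hx => ?_⟩
      rw [Finset.mem_coe, mem_bx_iff]
      have h1 : nv x ≤ b := hb (Set.mem_image_of_mem nv hx)
      have h2 : b < 2^b := Nat.lt_two_pow_self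
      unfold RR'
      have h3 : 2^b ≤ 2^(b+1) * N := by
        calc 2^b ≤ 2^(b+1) := Nat.pow_le_pow_right (by norm_num) (by omega)
          _ ≤ 2^(b+1) * N := Nat.le_mul_of_pos_right _ hN
      omega
    classical
    obtain ⟨i, hi, hmin⟩ : ∃ i, cluster0 ω ⊆ ↑(bx (RR' N i)) ∧
        ∀ j, j < i → ¬ cluster0 ω ⊆ ↑(bx (RR' N j)) :=
      ⟨Nat.find hex, Nat.find_spec hex, fun j hj => Nat.find_min hex hj⟩
    rcases i with _ | i
    · refine le_trans ?_ (le_add_right le_rfl)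
      exact pow_le_pow_left₀ zero_le (nD_card _ ω hi) k
    · refine le_trans ?_ (le_add_left (ENNReal.le_tsum i))
      have h1 := hmin i (by omega)
      rw [Set.not_subset] at h1
      obtain ⟨x, hx, hx2⟩ := h1
      have h2 : RR' N i ≤ nv x := by
        rw [Finset.mem_coe, mem_bx_iff] at hx2
        omega
      have h3 : ω ∈ ArmE (2 * (2^(i + 1) * N)) ∩ {ω | (cluster0 ω).Finite} :=
        ⟨armE_of_mem hx h2, hfin⟩
      rw [Set.indicator_of_mem h3, mul_one]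
      exact pow_le_pow_left₀ zero_le (nD_card _ ω hi) k

theorem meas_fin : MeasurableSet {ω : sqLattice.edgeSet → Bool | (cluster0 ω).Finite} := by
  have h : {ω : sqLattice.edgeSet → Bool | (cluster0 ω).Finite} =
      {ω | (cluster0 ω).Infinite}ᶜ := by
    ext ω
    simp only [Set.mem_setOf_eq, Set.mem_compl_iff, Set.not_infinite]
  rw [h]
  exact meas_inf.compl

/-- The upper bound in terms of the scales. -/
theorem upper_sc {p : unitInterval} {κ C0 : ℝ} {n N : ℕ} (h : Sc p κ C0 n) (hnN : n ≤ N)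
    (htail : ∀ j : ℕ, 1 ≤ j →
      (bondLaw p).real (ArmE (2 * (2^j * N)) ∩ {ω | (cluster0 ω).Finite}) ≤
        C0 * (n:ℝ) ^ (-(5/48 : ℝ)) * (1/4)^(2^j)) (k : ℕ) :
    ∫⁻ ω, Set.indicator {ω | (cluster0 ω).Finite}
      (fun ω => ((cluster0 ω).encard : ENNReal)^(k + 1)) ω ∂(bondLaw p) ≤
      ENNReal.ofReal (((72 * (8 + 4 * C0 / κ^4) * (1 + k)) ^ k * (72 * (8 * C0^2 + 4)) +
        ((72 * (8 + 4 * C0 / κ^4) * (1 + (2 * k + 1 : ℕ))) ^ (2 * k + 1) *
          (72 * (8 * C0^2 + 4)) + C0) *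
          ((4:ℝ)^(k + 1) * ∑' i : ℕ, ((4:ℝ)^(k + 1))^i * (1/2 : ℝ)^(2^i))) *
        ((4 * N : ℝ)^(2 * (k + 1)) * (n:ℝ) ^ (-(5/48 * (k + 2)) : ℝ))) := by
  have hC := h.cpos
  have hκ := h.kpos
  have hn := h.n1
  have hN : 1 ≤ N := hn.trans hnN
  have hn0 : (0:ℝ) < n := by exact_mod_cast hn
  have hN0 : (0:ℝ) < N := by exact_mod_cast hN
  obtain ⟨Q0, hQ0⟩ : ∃ Q0 : ℝ, Q0 = (72 * (8 + 4 * C0 / κ^4) * (1 + k)) ^ k *
    (72 * (8 * C0^2 + 4)) := ⟨_, rfl⟩
  obtain ⟨Q, hQ⟩ : ∃ Q : ℝ, Q = (72 * (8 + 4 * C0 / κ^4) * (1 + (2 * k + 1 : ℕ))) ^ (2 * k + 1) *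
    (72 * (8 * C0^2 + 4)) := ⟨_, rfl⟩
  have hQ00 : 0 ≤ Q0 := by rw [hQ0]; positivity
  have hQp : 0 ≤ Q := by rw [hQ]; positivity
  rw [← hQ0, ← hQ]
  obtain ⟨Y, hY⟩ : ∃ Y : ℝ, Y = (4 * N : ℝ)^(2 * (k + 1)) * (n:ℝ) ^ (-(5/48 * (k + 2)) : ℝ) :=
    ⟨_, rfl⟩
  have hY0 : 0 ≤ Y := by rw [hY]; positivity
  rw [← hY]
  have hR : ∀ i : ℕ, n ≤ RR' N i := by
    intro i
    unfold RR'
    have : N ≤ 2^(i + 1) * N := Nat.le_mul_of_pos_left _ (by positivity)
    omega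
  have hRr : ∀ i : ℕ, ((RR' N i : ℕ) : ℝ) = 4 * N * 2^i := by
    intro i
    unfold RR'
    push_cast
    ring
  -- the first term
  have hT0 : ∫⁻ ω, nD (bx (RR' N 0)) ω ^ (k + 1) ∂(bondLaw p) ≤ ENNReal.ofReal (Q0 * Y) := by
    refine (lint_nD p _ (k + 1) (RR' N 0 + n) (fun m hm => box_mom h (hR 0) k
      (boxE_mono hm))).trans (ENNReal.ofReal_le_ofReal (le_of_eq ?_))
    rw [hRr, pow_zero, mul_one, ← hQ0, hY]
  -- the other terms
  have hTi : ∀ i : ℕ, ∫⁻ ω, nD (bx (RR' N (i + 1))) ω ^ (k + 1) *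
        Set.indicator (ArmE (2 * (2^(i + 1) * N)) ∩ {ω | (cluster0 ω).Finite})
          (fun _ => (1 : ENNReal)) ω ∂(bondLaw p) ≤
        ENNReal.ofReal ((Q + C0) * Y * ((4:ℝ)^(k + 1) * (((4:ℝ)^(k + 1))^i *
          (1/2 : ℝ)^(2^i)))) := by
    intro i
    obtain ⟨A, hA⟩ : ∃ A : Set (sqLattice.edgeSet → Bool),
      A = ArmE (2 * (2^(i + 1) * N)) ∩ {ω | (cluster0 ω).Finite} := ⟨_, rfl⟩
    rw [← hA]
    have hAm : MeasurableSet A := by
      rw [hA]
      exact (meas_event _ (Arm _)).inter meas_fin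
    obtain ⟨R, hRd⟩ : ∃ R : ℝ, R = 4 * N * 2^(i + 1) := ⟨_, rfl⟩
    have hR0 : 0 < R := by rw [hRd]; positivity
    obtain ⟨l, hl⟩ : ∃ l : ℝ, l = (1/2 : ℝ)^(2^(i + 1)) * (R^(2 * (k + 1)))⁻¹ *
      (n:ℝ) ^ (5/48 * (k + 1) : ℝ) := ⟨_, rfl⟩
    have hl0 : 0 < l := by rw [hl]; positivity
    have hpt : ∀ ω, nD (bx (RR' N (i + 1))) ω ^ (k + 1) *
        Set.indicator A (fun _ => (1 : ENNReal)) ω ≤
        ENNReal.ofReal l * nD (bx (RR' N (i + 1))) ω ^ (2 * k + 1 + 1) +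
          ENNReal.ofReal l⁻¹ * Set.indicator A (fun _ => (1 : ENNReal)) ω := by
      intro ω
      by_cases hω : ω ∈ A
      · rw [Set.indicator_of_mem hω, mul_one, mul_one]
        have h1 := amgm (nD (bx (RR' N (i + 1))) ω ^ (k + 1)) hl0
        rw [← pow_mul] at h1
        have e : (k + 1) * 2 = 2 * k + 1 + 1 := by ring
        rw [e] at h1
        exact h1
      · rw [Set.indicator_of_notMem hω, mul_zero]
        exact zero_le
    have hU := lint_nD p (bx (RR' N (i + 1))) (2 * k + 1 + 1) (RR' N (i + 1) + n)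
      (fun m hm => box_mom h (hR (i + 1)) (2 * k + 1) (boxE_mono hm))
    have hW := htail (i + 1) (by omega)
    rw [← hA] at hW
    have hW2 : (bondLaw p) A ≤ ENNReal.ofReal
        (C0 * (n:ℝ) ^ (-(5/48 : ℝ)) * (1/4)^(2^(i + 1))) := by
      rw [← ENNReal.ofReal_toReal (measure_ne_top (bondLaw p) A)]
      exact ENNReal.ofReal_le_ofReal hW
    rw [hRr, ← hQ, ← hRd] at hU
    calc _ ≤ ∫⁻ ω, (ENNReal.ofReal l * nD (bx (RR' N (i + 1))) ω ^ (2 * k + 1 + 1) +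
          ENNReal.ofReal l⁻¹ * Set.indicator A (fun _ => (1 : ENNReal)) ω) ∂(bondLaw p) :=
          lintegral_mono hpt
      _ = ENNReal.ofReal l * ∫⁻ ω, nD (bx (RR' N (i + 1))) ω ^ (2 * k + 1 + 1) ∂(bondLaw p) +
          ENNReal.ofReal l⁻¹ * (bondLaw p) A := by
          rw [lintegral_add_left ((nD_meas _).pow_const _ |>.const_mul _),
            lintegral_const_mul _ ((nD_meas _).pow_const _),
            lintegral_const_mul _ (measurable_const.indicator hAm)]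
          congr 2
          exact lintegral_indicator_one hAm
      _ ≤ ENNReal.ofReal l * ENNReal.ofReal (Q * (R ^ (2 * ((2 * k + 1) + 1)) *
            (n:ℝ) ^ (-(5/48 * ((2 * k + 1 : ℕ) + 2)) : ℝ))) +
          ENNReal.ofReal l⁻¹ * ENNReal.ofReal
            (C0 * (n:ℝ) ^ (-(5/48 : ℝ)) * (1/4)^(2^(i + 1))) := by
          gcongr
      _ = ENNReal.ofReal (l * (Q * (R ^ (2 * ((2 * k + 1) + 1)) *
            (n:ℝ) ^ (-(5/48 * ((2 * k + 1 : ℕ) + 2)) : ℝ))) +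
          l⁻¹ * (C0 * (n:ℝ) ^ (-(5/48 : ℝ)) * (1/4)^(2^(i + 1)))) := by
          rw [← ENNReal.ofReal_mul hl0.le, ← ENNReal.ofReal_mul (by positivity),
            ← ENNReal.ofReal_add (by positivity) (by positivity)]
      _ ≤ _ := by
          apply ENNReal.ofReal_le_ofReal
          have e1 : l * (Q * (R ^ (2 * ((2 * k + 1) + 1)) *
              (n:ℝ) ^ (-(5/48 * ((2 * k + 1 : ℕ) + 2)) : ℝ))) =
              Q * ((1/2 : ℝ)^(2^(i + 1)) * R^(2 * (k + 1)) *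
                (n:ℝ) ^ (-(5/48 * (k + 2)) : ℝ)) := by
            have e2 : (n:ℝ) ^ (-(5/48 * (k + 2)) : ℝ) = (n:ℝ) ^ (5/48 * (k + 1) : ℝ) *
                (n:ℝ) ^ (-(5/48 * ((2 * k + 1 : ℕ) + 2)) : ℝ) := by
              rw [← Real.rpow_add hn0]
              congr 1
              push_cast
              ring
            have e3 : R ^ (2 * ((2 * k + 1) + 1)) = R^(2 * (k + 1)) * R^(2 * (k + 1)) := by
              rw [← pow_add]
              congr 1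
              ring
            rw [hl, e2, e3]
            have hRp : R^(2 * (k + 1)) ≠ 0 := by positivity
            field_simp
          have e4 : l⁻¹ * (C0 * (n:ℝ) ^ (-(5/48 : ℝ)) * (1/4)^(2^(i + 1))) =
              C0 * ((1/2 : ℝ)^(2^(i + 1)) * R^(2 * (k + 1)) *
                (n:ℝ) ^ (-(5/48 * (k + 2)) : ℝ)) := by
            have e5 : (n:ℝ) ^ (-(5/48 * (k + 2)) : ℝ) = (n:ℝ) ^ (-(5/48 : ℝ)) *
                ((n:ℝ) ^ (5/48 * (k + 1) : ℝ))⁻¹ := by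
              rw [← Real.rpow_neg hn0.le, ← Real.rpow_add hn0]
              congr 1
              ring
            have e6 : (1/4 : ℝ)^(2^(i + 1)) = (1/2 : ℝ)^(2^(i + 1)) * (1/2 : ℝ)^(2^(i + 1)) := by
              rw [← mul_pow]; norm_num
            rw [hl, e5, e6, mul_inv, mul_inv, inv_inv]
            have hh : (1/2 : ℝ)^(2^(i + 1)) ≠ 0 := by positivity
            field_simp
          rw [e1, e4, ← add_mul]
          have e7 : R^(2 * (k + 1)) = (4 * N : ℝ)^(2 * (k + 1)) *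
              ((4:ℝ)^(k + 1) * ((4:ℝ)^(k + 1))^i) := by
            rw [hRd, mul_pow]
            congr 1
            rw [← pow_mul, ← pow_mul, ← pow_add, show (4:ℝ) = 2^2 by norm_num, ← pow_mul]
            congr 1
            ring
          have e8 : (1/2 : ℝ)^(2^(i + 1)) ≤ (1/2 : ℝ)^(2^i) :=
            pow_le_pow_of_le_one (by norm_num) (by norm_num)
              (Nat.pow_le_pow_right (by norm_num) (by omega))
          have e9 : (Q + C0) * ((1/2 : ℝ)^(2^(i + 1)) * R^(2 * (k + 1)) *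
                (n:ℝ) ^ (-(5/48 * (k + 2)) : ℝ)) =
              (Q + C0) * Y * ((4:ℝ)^(k + 1) * (((4:ℝ)^(k + 1))^i * (1/2 : ℝ)^(2^(i+1)))) := by
            rw [e7, hY]; ring
          rw [e9]
          apply mul_le_mul_of_nonneg_left _ (by positivity)
          apply mul_le_mul_of_nonneg_left _ (by positivity)
          exact mul_le_mul_of_nonneg_left e8 (by positivity)
  have hmeasi : ∀ i : ℕ, Measurable (fun ω => nD (bx (RR' N (i + 1))) ω ^ (k + 1) *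
        Set.indicator (ArmE (2 * (2^(i + 1) * N)) ∩ {ω | (cluster0 ω).Finite})
          (fun _ => (1 : ENNReal)) ω) := fun i =>
    ((nD_meas _).pow_const _).mul
      (measurable_one.indicator ((meas_event _ (Arm _)).inter meas_fin))
  have hsum := summ ((4:ℝ)^(k + 1)) (by positivity)
  calc _ ≤ ∫⁻ ω, (nD (bx (RR' N 0)) ω ^ (k + 1) +
      ∑' i : ℕ, nD (bx (RR' N (i + 1))) ω ^ (k + 1) *
        Set.indicator (ArmE (2 * (2^(i + 1) * N)) ∩ {ω | (cluster0 ω).Finite})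
          (fun _ => (1 : ENNReal)) ω) ∂(bondLaw p) := lintegral_mono (decomp hN (k + 1))
    _ = ∫⁻ ω, nD (bx (RR' N 0)) ω ^ (k + 1) ∂(bondLaw p) +
      ∑' i : ℕ, ∫⁻ ω, nD (bx (RR' N (i + 1))) ω ^ (k + 1) *
        Set.indicator (ArmE (2 * (2^(i + 1) * N)) ∩ {ω | (cluster0 ω).Finite})
          (fun _ => (1 : ENNReal)) ω ∂(bondLaw p) := by
        rw [lintegral_add_left ((nD_meas _).pow_const _), lintegral_tsum]
        intro i
        exact (hmeasi i).aemeasurable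
    _ ≤ ENNReal.ofReal (Q0 * Y) + ∑' i : ℕ, ENNReal.ofReal ((Q + C0) * Y * ((4:ℝ)^(k + 1) *
          (((4:ℝ)^(k + 1))^i * (1/2 : ℝ)^(2^i)))) :=
        add_le_add hT0 (ENNReal.tsum_le_tsum hTi)
    _ = ENNReal.ofReal (Q0 * Y) + ENNReal.ofReal (∑' i : ℕ, (Q + C0) * Y * ((4:ℝ)^(k + 1) *
          (((4:ℝ)^(k + 1))^i * (1/2 : ℝ)^(2^i)))) := by
        rw [ENNReal.ofReal_tsum_of_nonneg (fun i => by positivity)
          ((hsum.mul_left _).mul_left _)]
    _ = _ := by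
        rw [← ENNReal.ofReal_add (by positivity) (tsum_nonneg (fun i => by positivity))]
        congr 1
        rw [tsum_mul_left, tsum_mul_left]
        ring

/-- **Upper bounds for all moments.** -/
theorem upper (k : ℕ) : ∃ C : ℝ, 0 < C ∧ ∀ p : unitInterval, (p:ℝ) ≠ 1/2 →
    ∫⁻ ω, Set.indicator {ω | (cluster0 ω).Finite}
      (fun ω => ((cluster0 ω).encard : ENNReal)^(k + 1)) ω ∂(bondLaw p) ≤
      ENNReal.ofReal (C * |(p:ℝ) - 1/2| ^ (-((91 * (k + 1) - 5) / 36) : ℝ)) := by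
  obtain ⟨κ, C0, c1, E, hκ, hC0, hc1, hE, hsc⟩ := scales
  obtain ⟨G, hG⟩ : ∃ G : ℝ, G = ((72 * (8 + 4 * C0 / κ^4) * (1 + k)) ^ k * (72 * (8 * C0^2 + 4)) +
        ((72 * (8 + 4 * C0 / κ^4) * (1 + (2 * k + 1 : ℕ))) ^ (2 * k + 1) *
          (72 * (8 * C0^2 + 4)) + C0) *
          ((4:ℝ)^(k + 1) * ∑' i : ℕ, ((4:ℝ)^(k + 1))^i * (1/2 : ℝ)^(2^i))) := ⟨_, rfl⟩
  have hts : 0 ≤ ∑' i : ℕ, ((4:ℝ)^(k + 1))^i * (1/2 : ℝ)^(2^i) :=
    tsum_nonneg (fun i => by positivity)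
  have hG0 : 0 < G := by rw [hG]; positivity
  refine ⟨G * ((4 * E)^(2 * (k + 1)) * c1 ^ (-(5/48 * (k + 2)) : ℝ)), by positivity, ?_⟩
  intro p hp
  obtain ⟨n, N, h, hnN, hN2, hn, hN, htail⟩ := hsc p hp
  refine (upper_sc h hnN htail k).trans (ENNReal.ofReal_le_ofReal ?_)
  rw [← hG]
  obtain ⟨s, hs⟩ : ∃ s : ℝ, s = |(p:ℝ) - 1/2| := ⟨_, rfl⟩
  have hs0 : 0 < s := by rw [hs]; exact abs_pos.mpr (sub_ne_zero.mpr hp)
  rw [← hs] at hn hN ⊢
  obtain ⟨x, hx⟩ : ∃ x : ℝ, x = s ^ (-(4/3 : ℝ)) := ⟨_, rfl⟩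
  rw [← hx] at hn hN
  have hx0 : 0 < x := by rw [hx]; positivity
  have e1 : (4 * N : ℝ)^(2 * (k + 1)) ≤ (4 * E)^(2 * (k + 1)) * x^(2 * (k + 1)) := by
    rw [← mul_pow]
    apply pow_le_pow_left₀ (by positivity)
    calc (4 * N : ℝ) ≤ 4 * (E * x) := mul_le_mul_of_nonneg_left hN (by norm_num)
      _ = 4 * E * x := by ring
  have e2 : (n:ℝ) ^ (-(5/48 * (k + 2)) : ℝ) ≤ c1 ^ (-(5/48 * (k + 2)) : ℝ) *
      x ^ (-(5/48 * (k + 2)) : ℝ) := by
    rw [← Real.mul_rpow hc1.le hx0.le]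
    apply Real.rpow_le_rpow_of_nonpos (by positivity) hn
    have : (0:ℝ) ≤ k := Nat.cast_nonneg _
    linarith
  have e3 : s ^ (-((91 * (k + 1) - 5) / 36) : ℝ) = x^(2 * (k + 1)) *
      x ^ (-(5/48 * (k + 2)) : ℝ) := by
    rw [← Real.rpow_natCast x, ← Real.rpow_add hx0, hx, ← Real.rpow_mul hs0.le]
    congr 1
    push_cast
    ring
  rw [e3]
  calc G * ((4 * N : ℝ)^(2 * (k + 1)) * (n:ℝ) ^ (-(5/48 * (k + 2)) : ℝ)) ≤
        G * (((4 * E)^(2 * (k + 1)) * x^(2 * (k + 1))) * (c1 ^ (-(5/48 * (k + 2)) : ℝ) *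
          x ^ (-(5/48 * (k + 2)) : ℝ))) := by
        apply mul_le_mul_of_nonneg_left _ hG0.le
        exact mul_le_mul e1 e2 (by positivity) (by positivity)
    _ = _ := by ring

end Pool.Agent.Helper859_AM
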