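import Pool.Agent.Helper859_AM.Upper

/-!
Bond percolation on `ℤ²`: lower bounds for all the moments of the size of the finite cluster.
-/

set_option maxHeartbeats 1000000

namespace Pool.Agent.Helper859_AM

open H31K H974 Finset MeasureTheory
open Pool.Agent.H160R2.CV (nv bx)

/-- The points used for the lower bound. -/
noncomputable def DD (r : ℕ) : Finset Vtx :=
  Finset.Icc (((r + 1) / 2 : ℕ) : ℤ) r ×ˢ Finset.Icc (-(r:ℤ)) r

theorem card_DD {r : ℕ} (hr : 1 ≤ r) : (r:ℝ)^2 ≤ ((DD r).card : ℝ) := by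
  unfold DD
  rw [Finset.card_product, Int.card_Icc, Int.card_Icc]
  have e1 : ((r:ℤ) + 1 - -(r:ℤ)).toNat = 2 * r + 1 := by omega
  obtain ⟨m, hm⟩ : ∃ m : ℕ, m = ((r:ℤ) + 1 - (((r + 1) / 2 : ℕ) : ℤ)).toNat := ⟨_, rfl⟩
  have h2 : r ≤ 2 * m := by rw [hm]; omega
  rw [e1, ← hm]
  have h3 : r * r ≤ m * (2 * r + 1) := by nlinarith
  have h4 : ((r * r : ℕ) : ℝ) ≤ ((m * (2 * r + 1) : ℕ) : ℝ) := by exact_mod_cast h3
  push_cast at h4 ⊢
  nlinarith

theorem tangent {y l : ℝ} (hy : 0 ≤ y) (hl : 0 < l) (k : ℕ) :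
    (k + 1) * l^k * y ≤ y^(k + 1) + k * l^(k + 1) := by
  have h1 := one_add_mul_le_pow (a := y / l - 1) (by
    have : 0 ≤ y / l := by positivity
    linarith) (k + 1)
  have e : 1 + (y / l - 1) = y / l := by ring
  rw [e, div_pow] at h1
  have h2 := mul_le_mul_of_nonneg_right h1 (show 0 ≤ l^(k+1) by positivity)
  rw [div_mul_cancel₀ _ (by positivity)] at h2
  have e2 : (1 + ((k + 1 : ℕ) : ℝ) * (y / l - 1)) * l^(k + 1) =
      (k + 1) * l^k * y - k * l^(k + 1) := by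
    push_cast
    field_simp
    ring
  rw [e2] at h2
  linarith

/-- Moments from below. -/
theorem mom_lower {q : ℝ} (h0 : 0 ≤ q) (h1 : q ≤ 1) {S : Finset Edg} {D : Finset Vtx}
    {mu pi : ℝ} (hmu : 0 < mu) (hpi : 0 < pi)
    (hm : mu ≤ ∑ x ∈ D, Pr (fun _ => q) S (TP x))
    (hp : Pr (fun _ => q) S (fun F => 0 < XD D F) ≤ pi) (k : ℕ) :
    mu^(k + 1) / pi^k ≤ Ex (fun _ => q) S (fun F => XD D F ^ (k + 1)) := by
  have ok := okq h0 h1
  obtain ⟨l, hl⟩ : ∃ l : ℝ, l = mu / pi := ⟨_, rfl⟩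
  have hl0 : 0 < l := by rw [hl]; positivity
  have hX : Ex (fun _ => q) S (XD D) = ∑ x ∈ D, Pr (fun _ => q) S (TP x) := by
    have : XD D = fun F => ∑ x ∈ D, ind (TP x F) := rfl
    rw [this, Ex_sum]
    rfl
  have h2 : Ex (fun _ => q) S (fun F => (k + 1) * l^k * XD D F) ≤
      Ex (fun _ => q) S (fun F => XD D F ^ (k + 1) + k * l^(k + 1) * ind (0 < XD D F)) := by
    apply Ex_mono ok
    intro F _
    rcases (XD_nonneg D F).eq_or_lt with h | h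
    · rw [← h, mul_zero, ind_not_of (lt_irrefl _), mul_zero, add_zero]
      positivity
    · rw [ind_of h, mul_one]
      exact tangent h.le hl0 k
  rw [Ex_mul_left, Ex_add, Ex_mul_left, hX] at h2
  have h3 : Ex (fun _ => q) S (fun F => ind (0 < XD D F)) ≤ pi := hp
  have h4 : (k + 1) * l^k * mu ≤ (k + 1) * l^k * ∑ x ∈ D, Pr (fun _ => q) S (TP x) :=
    mul_le_mul_of_nonneg_left hm (by positivity)
  have h5 : (k:ℝ) * l^(k + 1) * Ex (fun _ => q) S (fun F => ind (0 < XD D F)) ≤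
      k * l^(k + 1) * pi := mul_le_mul_of_nonneg_left h3 (by positivity)
  have e1 : mu^(k + 1) / pi^k = l^k * mu := by
    rw [hl, div_pow, pow_succ]; field_simp
  have e2 : (k:ℝ) * l^(k + 1) * pi = k * (l^k * mu) := by
    rw [pow_succ]
    have : l * pi = mu := by rw [hl]; field_simp
    calc (k:ℝ) * (l^k * l) * pi = k * (l^k * (l * pi)) := by ring
      _ = _ := by rw [this]
  rw [e1]
  rw [e2] at h5
  linarith

theorem exists_of_XD {D : Finset Vtx} {F : Finset Edg} (h : 0 < XD D F) :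
    ∃ x ∈ D, TP x F := by
  by_contra hcon
  push Not at hcon
  have : XD D F = 0 := by
    unfold XD
    apply Finset.sum_eq_zero
    intro x hx
    exact ind_not_of (hcon x hx)
  linarith

/-- The finite-volume lower bound. -/
theorem low_fin {p κ cc C0 : ℝ} {r : ℕ} (hr : 1 ≤ r) (hW : H12S.Win p κ (4 * r)) (hcc : 0 < cc)
    (hC0 : 0 < C0) (hlow : cc * ((4 * r : ℕ):ℝ) ^ (-(5/48 : ℝ)) ≤ arm p (4 * r))
    (hup : ∀ m : ℕ, 1 ≤ m → m ≤ 4 * r → arm p m ≤ C0 * (m:ℝ) ^ (-(5/48 : ℝ))) (k : ℕ) :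
    (κ^4 * cc^2 / 4)^(k + 1) / (2 * C0)^k * ((r:ℝ)^(2 * (k + 1)) *
      (r:ℝ) ^ (-(5/48 * (k + 2)) : ℝ)) ≤
      Ex (fun _ => p) (boxE (5 * r)) (fun F => XD (DD r) F ^ (k + 1)) := by
  have h0 : 0 ≤ p := by linarith [hW.lo]
  have h1 : p ≤ 1 := by linarith [hW.hi]
  have ok := okq h0 h1
  have hκ := hW.kpos
  have hr0 : (0:ℝ) < r := by exact_mod_cast hr
  have hrp : 0 < (r:ℝ) ^ (-(5/48 : ℝ)) := by positivity
  obtain ⟨mu, hmu⟩ : ∃ mu : ℝ, mu = κ^4 * cc^2 / 4 * ((r:ℝ)^2 * ((r:ℝ) ^ (-(5/48 : ℝ)))^2) :=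
    ⟨_, rfl⟩
  obtain ⟨pi, hpi⟩ : ∃ pi : ℝ, pi = 2 * C0 * (r:ℝ) ^ (-(5/48 : ℝ)) := ⟨_, rfl⟩
  have hmu0 : 0 < mu := by rw [hmu]; positivity
  have hpi0 : 0 < pi := by rw [hpi]; positivity
  -- first moment
  have ha4 : cc / 2 * (r:ℝ) ^ (-(5/48 : ℝ)) ≤ arm p (4 * r) := by
    refine le_trans ?_ hlow
    have h2 : ((4 * r : ℕ):ℝ) = 4 * (r:ℝ) := by push_cast; ring
    rw [h2, Real.mul_rpow (by norm_num) hr0.le]
    have h3 : (1:ℝ)/2 ≤ (4:ℝ) ^ (-(5/48 : ℝ)) := by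
      have h4 : (4:ℝ) ^ (-(1/2) : ℝ) = 1/2 := by
        rw [show (4:ℝ) = 2^(2:ℝ) by norm_num, ← Real.rpow_mul (by norm_num)]
        norm_num
      rw [← h4]
      exact Real.rpow_le_rpow_of_exponent_le (by norm_num) (by norm_num)
    calc cc / 2 * (r:ℝ) ^ (-(5/48 : ℝ)) = cc * (1/2 * (r:ℝ) ^ (-(5/48 : ℝ))) := by ring
      _ ≤ cc * ((4:ℝ) ^ (-(5/48 : ℝ)) * (r:ℝ) ^ (-(5/48 : ℝ))) := by
          apply mul_le_mul_of_nonneg_left _ hcc.le
          exact mul_le_mul_of_nonneg_right h3 hrp.le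
  have ha3 : cc / 2 * (r:ℝ) ^ (-(5/48 : ℝ)) ≤ arm p (3 * r) :=
    ha4.trans (arm_anti h0 h1 (by omega))
  have ha5 : κ ≤ hh p ((6 * r : ℕ) : ℤ) ((2 * r : ℕ) : ℤ) := by
    have h := hW.pri (2 * r) (by omega) (by omega)
    refine h.trans (hh_mono h0 h1 (by push_cast; omega) (by push_cast; omega) le_rfl)
  have hterm : ∀ x ∈ DD r, κ^4 * cc^2 / 4 * ((r:ℝ) ^ (-(5/48 : ℝ)))^2 ≤
      Pr (fun _ => p) (boxE (5 * r)) (TP x) := by
    intro x hx
    have hx' : inR (-r) r (-r) r (x.1, x.2) := by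
      unfold DD at hx
      rw [Finset.mem_product, Finset.mem_Icc, Finset.mem_Icc] at hx
      unfold inR
      simp only
      omega
    have t := two_point h0 h1 (r := r) (by omega) hx' (Finset.Subset.refl _)
    refine le_trans ?_ t
    have b1 : (cc / 2 * (r:ℝ) ^ (-(5/48 : ℝ))) * (cc / 2 * (r:ℝ) ^ (-(5/48 : ℝ))) ≤
        arm p (3 * r) * arm p (4 * r) :=
      mul_le_mul ha3 ha4 (by positivity) (arm_nonneg h0 h1 _)
    have b2 := pow_le_pow_left₀ hκ.le ha5 4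
    calc κ^4 * cc^2 / 4 * ((r:ℝ) ^ (-(5/48 : ℝ)))^2 =
        ((cc / 2 * (r:ℝ) ^ (-(5/48 : ℝ))) * (cc / 2 * (r:ℝ) ^ (-(5/48 : ℝ)))) * κ^4 := by ring
      _ ≤ _ := mul_le_mul b1 b2 (by positivity)
          (mul_nonneg (arm_nonneg h0 h1 _) (arm_nonneg h0 h1 _))
  have hm : mu ≤ ∑ x ∈ DD r, Pr (fun _ => p) (boxE (5 * r)) (TP x) := by
    have hs := Finset.sum_le_sum hterm
    rw [Finset.sum_const, nsmul_eq_mul] at hs
    refine le_trans ?_ hs
    rw [hmu]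
    have h2 := mul_le_mul_of_nonneg_right (card_DD hr)
      (show 0 ≤ κ^4 * cc^2 / 4 * ((r:ℝ) ^ (-(5/48 : ℝ)))^2 by positivity)
    linarith
  -- the probability that there are points
  have hp : Pr (fun _ => p) (boxE (5 * r)) (fun F => 0 < XD (DD r) F) ≤ pi := by
    obtain ⟨r', hr'⟩ : ∃ r' : ℕ, r' = (r + 1) / 2 := ⟨_, rfl⟩
    have h2 : Pr (fun _ => p) (boxE (5 * r)) (fun F => 0 < XD (DD r) F) ≤
        Pr (fun _ => p) (boxE (5 * r)) (Arm r') := by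
      apply Pr_mono ok
      intro F _ hF
      obtain ⟨x, hx, hT⟩ := exists_of_XD hF
      unfold DD at hx
      rw [Finset.mem_product, Finset.mem_Icc, Finset.mem_Icc] at hx
      obtain ⟨w, k1, k2, k3⟩ := first_exit (a := -r') (b := r') (c := -r') (d := r')
        (by unfold inR; simp) (show Reach (↑F : Set Edg) (0, 0) x from hT) (by omega)
      exact ⟨w, ⟨k1, k2⟩, k3⟩
    rw [pr_Arm p (boxE_mono (by omega))] at h2
    have h3 := hup r' (by omega) (by omega)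
    have hr'0 : (0:ℝ) < r' := by exact_mod_cast (by omega : 0 < r')
    have h4 := pow_cmp (x := (r' : ℝ)) (y := (r : ℝ)) (c := 2) (e := 5/48) hr'0 hr0 (by norm_num)
      (by exact_mod_cast (by omega : r ≤ 2 * r')) (by norm_num) (by norm_num)
    calc _ ≤ arm p r' := h2
      _ ≤ C0 * (r':ℝ) ^ (-(5/48 : ℝ)) := h3
      _ ≤ C0 * (2 * (r:ℝ) ^ (-(5/48 : ℝ))) := mul_le_mul_of_nonneg_left h4 hC0.le
      _ = pi := by rw [hpi]; ring
  refine le_trans (le_of_eq ?_) (mom_lower h0 h1 hmu0 hpi0 hm hp k)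
  have e1 : (r:ℝ) ^ (-(5/48 * (k + 2)) : ℝ) = ((r:ℝ) ^ (-(5/48 : ℝ)))^(k + 2) := by
    rw [← Real.rpow_natCast, ← Real.rpow_mul hr0.le]
    congr 1
    push_cast
    ring
  rw [e1, hmu, hpi]
  obtain ⟨z, hz⟩ : ∃ z : ℝ, z = (r:ℝ) ^ (-(5/48 : ℝ)) := ⟨_, rfl⟩
  rw [← hz] at hrp ⊢
  rw [mul_pow (κ^4 * cc^2 / 4), mul_pow (2 * C0), mul_pow ((r:ℝ)^2), ← pow_mul, ← pow_mul]
  have e2 : z^(2 * (k + 1)) = z^(k + 2) * z^k := by rw [← pow_add]; congr 1; ring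
  rw [e2]
  field_simp

theorem pr_blk_win {q κ : ℝ} {n : ℕ} (hW : H12S.Win q κ n) {r : ℕ} (hr : 1 ≤ r)
    (hn : r + 1 ≤ n) :
    κ^4 ≤ Pr (fun _ => q) (boxE (8 * r)) (Blk ((4 * r : ℕ) : ℤ) ((8 * r : ℕ) : ℤ)) := by
  have h := pD_ge hW 0 0 hr hn
  have e : pD q 0 0 r = Pr (fun _ => q) (boxE (8 * r)) (Blk ((4 * r : ℕ) : ℤ) ((8 * r : ℕ) : ℤ)) := by
    unfold pD
    have e1 : Pr (fun _ => q) (Bg 0 0 r) (DC 0 0 r) =
        Pr (fun _ => q) ((trl (-0) (-0)).mp (Bg 0 0 r))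
          (Blk ((4 * r : ℕ) : ℤ) ((8 * r : ℕ) : ℤ)) := by
      rw [LSym.pr]
      rfl
    rw [e1, trl_Bg]
    rfl
  rw [← e]
  exact h

theorem XD_le_card (D : Finset Vtx) (S : Finset Edg) (ω : sqLattice.edgeSet → Bool) :
    ENNReal.ofReal (XD D (FF S ω)) ≤ ((cluster0 ω).encard : ENNReal) := by
  classical
  have h := sum_ind_le S D ω
  refine le_trans (le_of_eq ?_) h
  unfold XD
  rw [ENNReal.ofReal_sum_of_nonneg (fun _ _ => ind_nonneg _)]
  apply Finset.sum_congr rfl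
  intro x _
  rw [ofReal_ind, Set.indicator_apply]
  rfl

theorem FF_inter (S T : Finset Edg) (hT : T ⊆ S) (ω : sqLattice.edgeSet → Bool) :
    FF S ω ∩ T = FF T ω := by
  ext e
  rw [Finset.mem_inter, mem_FF, mem_FF]
  constructor
  · rintro ⟨⟨_, h2⟩, h3⟩; exact ⟨h3, h2⟩
  · rintro ⟨h1, h2⟩; exact ⟨⟨hT h1, h2⟩, h1⟩

/-- The infinite-volume lower bound in terms of the scale. -/
theorem lower_sc (p : unitInterval) {κ : ℝ} {r : ℕ} (hr : 1 ≤ r)
    (hW : H12S.Win (p:ℝ) κ (4 * r)) (k : ℕ) :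
    ENNReal.ofReal (κ^4 * Ex (fun _ => (p:ℝ)) (boxE (5 * r)) (fun F => XD (DD r) F ^ (k + 1))) ≤
      ∫⁻ ω, Set.indicator {ω | (cluster0 ω).Finite}
        (fun ω => ((cluster0 ω).encard : ENNReal)^(k + 1)) ω ∂(bondLaw p) := by
  classical
  have h0 : 0 ≤ (p:ℝ) := p.2.1
  have h1 : (p:ℝ) ≤ 1 := p.2.2
  have ok := okq h0 h1
  obtain ⟨S, hS⟩ : ∃ S : Finset Edg, S = boxE (8 * (2 * r)) := ⟨_, rfl⟩
  have s1 : boxE (5 * r) ⊆ S := by rw [hS]; exact boxE_mono (by omega)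
  have s2 : annE (4 * (2 * r)) (8 * (2 * r)) ⊆ S := by
    rw [hS]; exact Pool.Agent.W424.NC.annE_sub _ _
  have hd : Disjoint (boxE (5 * r)) (annE (4 * (2 * r)) (8 * (2 * r))) := by
    unfold annE
    apply Finset.disjoint_of_subset_left (boxE_mono (show 5 * r ≤ 4 * (2 * r) by omega))
    exact Finset.disjoint_sdiff
  obtain ⟨B, hB⟩ : ∃ B : Finset Edg → Prop,
    B = Blk ((4 * (2 * r) : ℕ) : ℤ) ((8 * (2 * r) : ℕ) : ℤ) := ⟨_, rfl⟩
  have hBlk : κ^4 ≤ Pr (fun _ => (p:ℝ)) S B := by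
    rw [hS, hB]
    exact pr_blk_win hW (r := 2 * r) (by omega) (by omega)
  obtain ⟨g, hg⟩ : ∃ g : Finset Edg → ℝ,
    g = fun F => XD (DD r) (F ∩ boxE (5 * r)) ^ (k + 1) * ind (B F) := ⟨_, rfl⟩
  have hgF : ∀ F, g F = XD (DD r) (F ∩ boxE (5 * r)) ^ (k + 1) * ind (B F) :=
    fun F => by rw [hg]
  have hg0 : ∀ F, 0 ≤ g F := fun F => by
    rw [hgF]
    exact mul_nonneg (pow_nonneg (XD_nonneg _ _) _) (ind_nonneg _)
  have e1 : Ex (fun _ => (p:ℝ)) S g =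
      Ex (fun _ => (p:ℝ)) (boxE (5 * r)) (fun F => XD (DD r) F ^ (k + 1)) *
        Pr (fun _ => (p:ℝ)) S B := by
    have i1 := Ex_mul_indep (p := fun _ => (p:ℝ)) s1 s2 hd
      (f := fun F => XD (DD r) (F ∩ boxE (5 * r)) ^ (k + 1)) (g := fun F => ind (B F))
      (fun F _ => by rw [Finset.inter_assoc, Finset.inter_self])
      (fun F _ => by
        apply ind_congr
        rw [hB]
        exact Blk_local (by omega) (Finset.Subset.refl _) F)
    have i2 : Ex (fun _ => (p:ℝ)) S (fun F => XD (DD r) (F ∩ boxE (5 * r)) ^ (k + 1)) =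
        Ex (fun _ => (p:ℝ)) (boxE (5 * r)) (fun F => XD (DD r) F ^ (k + 1)) := by
      rw [Ex_local s1 (f := fun F => XD (DD r) (F ∩ boxE (5 * r)) ^ (k + 1))
        (fun F _ => by rw [Finset.inter_assoc, Finset.inter_self])]
      apply Ex_congr
      intro F hF
      rw [Finset.inter_eq_left.mpr hF]
    rw [hg, i1, i2]
    rfl
  have hEx0 : 0 ≤ Ex (fun _ => (p:ℝ)) (boxE (5 * r)) (fun F => XD (DD r) F ^ (k + 1)) :=
    Ex_nonneg ok (fun F _ => pow_nonneg (XD_nonneg _ _) _)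
  have hle : κ^4 * Ex (fun _ => (p:ℝ)) (boxE (5 * r)) (fun F => XD (DD r) F ^ (k + 1)) ≤
      Ex (fun _ => (p:ℝ)) S g := by
    rw [e1, mul_comm]
    exact mul_le_mul_of_nonneg_left hBlk hEx0
  refine (ENNReal.ofReal_le_ofReal hle).trans ?_
  rw [← lint_FF p S hg0]
  apply lintegral_mono
  intro ω
  simp only
  rw [hgF]
  by_cases hb : B (FF S ω)
  · rw [ind_of hb, mul_one]
    have hfin : (cluster0 ω).Finite := by
      apply Set.Finite.subset (Finset.finite_toSet (bx (8 * (2 * r))))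
      intro x hx
      rw [Finset.mem_coe, mem_bx_iff]
      by_contra hcon
      push Not at hcon
      obtain ⟨w, hw, hreach⟩ := armE_iff.mp (armE_of_mem hx hcon.le)
      rw [hB] at hb
      refine not_blk_of_arm (v := w) (by positivity) (by push_cast; omega) ?_ ?_ hb
      · rw [FF_coe]
        refine hreach.mono ?_
        rintro e ⟨he1, he2⟩
        exact ⟨he1, by rw [hS]; exact he2⟩
      · unfold onB at hw
        rcases hw.2 with h | h | h | h <;> rw [h] <;> push_cast <;> omega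
    rw [Set.indicator_of_mem (show ω ∈ {ω | (cluster0 ω).Finite} from hfin),
      ENNReal.ofReal_pow (XD_nonneg _ _), FF_inter S _ s1]
    exact pow_le_pow_left₀ zero_le (XD_le_card _ _ _) _
  · rw [ind_not_of hb, mul_zero, ENNReal.ofReal_zero]
    exact zero_le

/-- The trivial lower bound. -/
theorem lower_triv (p : unitInterval) (hp : (p:ℝ) ≤ 3/4) (k : ℕ) :
    ENNReal.ofReal ((1/4 : ℝ)^((boxE 1).card)) ≤
      ∫⁻ ω, Set.indicator {ω | (cluster0 ω).Finite}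
        (fun ω => ((cluster0 ω).encard : ENNReal)^(k + 1)) ω ∂(bondLaw p) := by
  have h1 : (bondLaw p).real {ω | FF (boxE 1) ω = ∅} = (1 - (p:ℝ))^((boxE 1).card) := by
    rw [law_eq p (Finset.empty_subset _), Finset.prod_empty, one_mul, Finset.sdiff_empty,
      Finset.prod_const]
  have h2 : (1/4 : ℝ)^((boxE 1).card) ≤ (bondLaw p).real {ω | FF (boxE 1) ω = ∅} := by
    rw [h1]
    exact pow_le_pow_left₀ (by norm_num) (by linarith) _
  have h3 : ENNReal.ofReal ((1/4 : ℝ)^((boxE 1).card)) ≤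
      (bondLaw p) {ω | FF (boxE 1) ω = ∅} := by
    rw [← ENNReal.ofReal_toReal (measure_ne_top (bondLaw p) {ω | FF (boxE 1) ω = ∅})]
    exact ENNReal.ofReal_le_ofReal h2
  refine h3.trans ?_
  have h4 : (bondLaw p) {ω | FF (boxE 1) ω = ∅} =
      ∫⁻ ω, Set.indicator {ω | FF (boxE 1) ω = ∅} (fun _ => (1 : ENNReal)) ω ∂(bondLaw p) :=
    (lintegral_indicator_one (meas_FF _ _)).symm
  rw [h4]
  apply lintegral_mono
  intro ω
  by_cases hω : ω ∈ {ω | FF (boxE 1) ω = ∅}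
  · rw [Set.indicator_of_mem hω]
    have hω' : FF (boxE 1) ω = ∅ := hω
    have hfin : (cluster0 ω).Finite := by
      apply Set.Finite.subset (Finset.finite_toSet (bx 0))
      intro x hx
      rw [Finset.mem_coe, mem_bx_iff]
      by_contra hcon
      push Not at hcon
      obtain ⟨w, hw, hreach⟩ := armE_iff.mp (armE_of_mem (R := 1) hx (by omega))
      have h5 : Reach (↑(FF (boxE 1) ω) : Set Edg) (0, 0) w := by rw [FF_coe]; exact hreach
      rw [hω', Finset.coe_empty] at h5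
      have h6 : ((0, 0) : Vtx) = w := by
        rcases Relation.ReflTransGen.cases_head h5 with h | ⟨c, ⟨e, he, _⟩, _⟩
        · exact h
        · exact absurd he (Set.notMem_empty e)
      unfold onB at hw
      rw [← h6] at hw
      simp at hw
    rw [Set.indicator_of_mem (show ω ∈ {ω | (cluster0 ω).Finite} from hfin)]
    apply one_le_pow₀
    have h7 : (1 : ℕ∞) ≤ (cluster0 ω).encard := by
      rw [Set.one_le_encard_iff_nonempty]
      exact ⟨(0, 0), SimpleGraph.Reachable.refl _⟩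
    have h8 := ENat.toENNReal_le.mpr h7
    simpa using h8
  · rw [Set.indicator_of_notMem hω]
    exact zero_le

/-- **Lower bounds for all moments.** -/
theorem lower (k : ℕ) : ∃ c : ℝ, 0 < c ∧ ∀ p : unitInterval, (p:ℝ) ≠ 1/2 → (p:ℝ) ≤ 3/4 →
    ENNReal.ofReal (c * |(p:ℝ) - 1/2| ^ (-((91 * (k + 1) - 5) / 36) : ℝ)) ≤
    ∫⁻ ω, Set.indicator {ω | (cluster0 ω).Finite}
      (fun ω => ((cluster0 ω).encard : ENNReal)^(k + 1)) ω ∂(bondLaw p) := by
  obtain ⟨κ, β, hκ, hβ, hst⟩ := Pool.Agent.W424.NC.armS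
  obtain ⟨cc, C, hcc, hC, harm⟩ := Pool.Agent.W424.NC.arm_crit
  obtain ⟨G, hG⟩ : ∃ G : ℝ, G = κ^4 * ((κ^4 * (cc/3)^2 / 4)^(k + 1) / (2 * (3 * C))^k) :=
    ⟨_, rfl⟩
  have hG0 : 0 < G := by rw [hG]; positivity
  obtain ⟨e, he⟩ : ∃ e : ℝ, e = (91 * (k + 1) - 5) / 36 := ⟨_, rfl⟩
  have hk0 : (0:ℝ) ≤ k := Nat.cast_nonneg _
  have he0 : 0 < e := by rw [he]; linarith
  obtain ⟨E, hE⟩ : ∃ E : ℝ, E = (β ^ (4/3 : ℝ) / 16)^(2 * (k + 1)) *
    (β ^ (4/3 : ℝ)) ^ (-(5/48 * (k + 2)) : ℝ) := ⟨_, rfl⟩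
  have hE0 : 0 < E := by rw [hE]; positivity
  refine ⟨min (G * E) ((1/4 : ℝ)^((boxE 1).card) * (β / 8) ^ e),
    lt_min (by positivity) (by positivity), ?_⟩
  intro p hp hp34
  obtain ⟨s, hs⟩ : ∃ s : ℝ, s = |(p:ℝ) - 1/2| := ⟨_, rfl⟩
  have hs0 : 0 < s := by rw [hs]; exact abs_pos.mpr (sub_ne_zero.mpr hp)
  rw [← hs, ← he]
  have hse : 0 < s ^ (-e) := Real.rpow_pos_of_pos hs0 _
  by_cases hsm : β / 8 ≤ s
  · refine le_trans (ENNReal.ofReal_le_ofReal ?_) (lower_triv p hp34 k)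
    have h1 : s ^ (-e) ≤ (β / 8) ^ (-e) :=
      Real.rpow_le_rpow_of_nonpos (by positivity) hsm (by linarith)
    have h2 : (β / 8) ^ e * (β / 8) ^ (-e) = 1 := by
      rw [← Real.rpow_add (by positivity)]; simp
    calc min (G * E) ((1/4 : ℝ)^((boxE 1).card) * (β / 8) ^ e) * s ^ (-e) ≤
        ((1/4 : ℝ)^((boxE 1).card) * (β / 8) ^ e) * (β / 8) ^ (-e) :=
          mul_le_mul (min_le_right _ _) h1 hse.le (by positivity)
      _ = (1/4 : ℝ)^((boxE 1).card) * ((β / 8) ^ e * (β / 8) ^ (-e)) := by ring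
      _ = _ := by rw [h2, mul_one]
  · push Not at hsm
    have hsb : s ≤ β := by linarith
    obtain ⟨n, hn1, hwin, hnx, hxn⟩ := Pool.Agent.Y554.NC.scale_exists hβ hs0 hsb
    obtain ⟨x, hx⟩ : ∃ x : ℝ, x = s ^ (-(4/3 : ℝ)) := ⟨_, rfl⟩
    have hx0 : 0 < x := by rw [hx]; positivity
    have ex : (β/s) ^ (4/3 : ℝ) = β ^ (4/3 : ℝ) * x := by
      rw [Real.div_rpow hβ.le hs0.le, hx, Real.rpow_neg hs0.le, div_eq_mul_inv]
    have hx16 : 16 ≤ (β/s)^(4/3 : ℝ) := by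
      have h8 : (8:ℝ) ≤ β / s := by rw [le_div_iff₀ hs0]; linarith
      calc (16:ℝ) = ((8:ℝ))^(4/3 : ℝ) := by
            have : (8:ℝ) = (2:ℝ)^(3:ℝ) := by norm_num
            rw [this, ← Real.rpow_mul (by norm_num)]
            norm_num
        _ ≤ (β/s)^(4/3 : ℝ) := Real.rpow_le_rpow (by norm_num) h8 (by norm_num)
    rw [ex] at hnx hxn hx16
    have hn8 : 8 ≤ n := by
      have : (8:ℝ) ≤ n := by linarith
      exact_mod_cast this
    obtain ⟨r, hr⟩ : ∃ r : ℕ, r = n / 4 := ⟨_, rfl⟩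
    have hr1 : 1 ≤ r := by omega
    have hr4 : 4 * r ≤ n := by omega
    have hr5 : n ≤ 2 * (4 * r) := by omega
    have hr0 : (0:ℝ) < r := by exact_mod_cast hr1
    have hwinm : ∀ m : ℕ, 1 ≤ m → m ≤ n → |(p:ℝ) - 1/2| ≤ β * (m:ℝ)^(-(3/4 : ℝ)) := by
      intro m hm hmn
      have hm0 : (0:ℝ) < m := by exact_mod_cast hm
      rw [← hs]
      refine hwin.trans (mul_le_mul_of_nonneg_left ?_ hβ.le)
      exact Real.rpow_le_rpow_of_nonpos hm0 (by exact_mod_cast hmn) (by norm_num)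
    obtain ⟨hW, -, hA⟩ := hst (4 * r) (by omega) p (hwinm (4 * r) (by omega) hr4)
    have hlow : cc / 3 * ((4 * r : ℕ):ℝ) ^ (-(5/48 : ℝ)) ≤ arm p (4 * r) := by
      have h1 := (harm (4 * r) (by omega)).1
      linarith
    have hup : ∀ m : ℕ, 1 ≤ m → m ≤ 4 * r → arm p m ≤ (3 * C) * (m:ℝ) ^ (-(5/48 : ℝ)) := by
      intro m hm hmr
      have h1 := (hst m hm p (hwinm m hm (hmr.trans hr4))).2.1
      have h2 := (harm m hm).2
      linarith
    have hfin := low_fin hr1 hW (show 0 < cc / 3 by positivity) (show 0 < 3 * C by positivity)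
      hlow hup k
    refine le_trans (ENNReal.ofReal_le_ofReal ?_) (lower_sc p hr1 hW k)
    have h3 := mul_le_mul_of_nonneg_left hfin (show 0 ≤ κ^4 by positivity)
    refine le_trans ?_ h3
    have h4 : (n:ℝ) ≤ 2 * (4 * r) := by exact_mod_cast hr5
    have h4' : 4 * (r:ℝ) ≤ n := by exact_mod_cast hr4
    have hbx : 0 < β ^ (4/3 : ℝ) * x := by positivity
    have hr6 : β ^ (4/3 : ℝ) / 16 * x ≤ r := by
      have h6 : β ^ (4/3 : ℝ) / 16 * x = (β ^ (4/3 : ℝ) * x) / 16 := by ring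
      rw [h6]
      linarith
    have hr7 : (r:ℝ) ≤ β ^ (4/3 : ℝ) * x := by linarith
    have e1 : (β ^ (4/3 : ℝ) / 16)^(2 * (k + 1)) * x^(2 * (k + 1)) ≤ (r:ℝ)^(2 * (k + 1)) := by
      rw [← mul_pow]
      exact pow_le_pow_left₀ (by positivity) hr6 _
    have e2 : (β ^ (4/3 : ℝ)) ^ (-(5/48 * (k + 2)) : ℝ) * x ^ (-(5/48 * (k + 2)) : ℝ) ≤
        (r:ℝ) ^ (-(5/48 * (k + 2)) : ℝ) := by
      rw [← Real.mul_rpow (by positivity) hx0.le]
      exact Real.rpow_le_rpow_of_nonpos hr0 hr7 (by linarith)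
    have e3 : s ^ (-e) = x^(2 * (k + 1)) * x ^ (-(5/48 * (k + 2)) : ℝ) := by
      rw [← Real.rpow_natCast x, ← Real.rpow_add hx0, hx, ← Real.rpow_mul hs0.le, he]
      congr 1
      push_cast
      ring
    rw [e3]
    calc min (G * E) ((1/4 : ℝ)^((boxE 1).card) * (β / 8) ^ e) *
          (x^(2 * (k + 1)) * x ^ (-(5/48 * (k + 2)) : ℝ)) ≤
          (G * E) * (x^(2 * (k + 1)) * x ^ (-(5/48 * (k + 2)) : ℝ)) :=
          mul_le_mul_of_nonneg_right (min_le_left _ _) (by positivity)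
      _ = G * (((β ^ (4/3 : ℝ) / 16)^(2 * (k + 1)) * x^(2 * (k + 1))) *
          ((β ^ (4/3 : ℝ)) ^ (-(5/48 * (k + 2)) : ℝ) * x ^ (-(5/48 * (k + 2)) : ℝ))) := by
          rw [hE]; ring
      _ ≤ G * ((r:ℝ)^(2 * (k + 1)) * (r:ℝ) ^ (-(5/48 * (k + 2)) : ℝ)) := by
          apply mul_le_mul_of_nonneg_left _ hG0.le
          exact mul_le_mul e1 e2 (by positivity) (by positivity)
      _ = _ := by rw [hG]; ring

end Pool.Agent.Helper859_AM
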