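import Pool.Agent.Helper859_AM.Lim

/-!
Bond percolation on `ℤ²`: large finite clusters off the critical point.
-/

set_option maxHeartbeats 1000000

namespace Pool.Agent.Helper859_AM

open H31K H974 Finset MeasureTheory

theorem two_pow_add (j i : ℕ) : 2^j + i ≤ 2^(i + j) := by
  induction i with
  | zero => simp
  | succ i ih =>
    have h1 : 1 ≤ 2^(i + j) := Nat.one_le_two_pow
    have h2 : 2^(i + 1 + j) = 2 * 2^(i + j) := by
      rw [show i + 1 + j = (i + j) + 1 by ring, pow_succ]; ring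
    omega

theorem eps_shift {p : ℝ} (h0 : 0 ≤ p) (h1 : p ≤ 1) {N : ℕ} (hN : 2 ≤ N)
    (he : eps p N ≤ 1/100) (j i : ℕ) :
    25 * eps p (2^i * (2^j * N)) ≤ (1/4)^(2^j) * (1/4)^i := by
  have h2 := eps_pow2 h0 h1 hN he (i + j)
  have e : 2^i * (2^j * N) = 2^(i + j) * N := by rw [pow_add]; ring
  rw [e]
  refine h2.trans ?_
  rw [← pow_add]
  exact pow_le_pow_of_le_one (by norm_num) (by norm_num) (two_pow_add j i)

theorem steps_fail {p : ℝ} (h0 : 0 ≤ p) (h1 : p ≤ 1) {N : ℕ} (hN : 2 ≤ N)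
    (he : eps p N ≤ 1/100) (j J : ℕ) {S : Finset Edg}
    (hS : boxE (2 * (2^J * (2^j * N))) ⊆ S) :
    1 - 4/75 * (1/4 : ℝ)^(2^j) * (1 - (1/4 : ℝ)^(J + 1)) ≤
      Pr (fun _ => p) S (fun F => ∀ i ≤ J, Step (2^j * N) i F) := by
  have ok := okq h0 h1
  induction J with
  | zero =>
    have e : Pr (fun _ => p) S (fun F => ∀ i ≤ 0, Step (2^j * N) i F) =
        Pr (fun _ => p) S (Step (2^j * N) 0) := by
      apply Pr_congr
      intro F _
      constructor
      · intro h; exact h 0 le_rfl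
      · intro h i hi
        have : i = 0 := by omega
        rw [this]; exact h
    rw [e, pr_step hS]
    have h2 := eps_shift h0 h1 hN he j 0
    norm_num at h2 ⊢
    linarith
  | succ J ih =>
    have hle : 2 * (2^J * (2^j * N)) ≤ 2 * (2^(J+1) * (2^j * N)) := by
      rw [pow_succ]
      nlinarith [Nat.zero_le (2^J * (2^j * N))]
    have hS' : boxE (2 * (2^J * (2^j * N))) ⊆ S := (boxE_mono hle).trans hS
    have i1 := ih hS'
    have i2 := Pr_and_ge ok S (fun F => ∀ i ≤ J, Step (2^j * N) i F) (Step (2^j * N) (J + 1))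
    have i3 : Pr (fun _ => p) S (fun F => (∀ i ≤ J, Step (2^j * N) i F) ∧
        Step (2^j * N) (J + 1) F) =
        Pr (fun _ => p) S (fun F => ∀ i ≤ J + 1, Step (2^j * N) i F) := by
      apply Pr_congr
      intro F _
      constructor
      · rintro ⟨h, h'⟩ i hi
        rcases Nat.lt_or_ge i (J + 1) with hlt | hge
        · exact h i (by omega)
        · have : i = J + 1 := by omega
          rw [this]; exact h'
      · intro h
        exact ⟨fun i hi => h i (by omega), h _ le_rfl⟩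
    rw [pr_step hS, i3] at i2
    have h3 := eps_shift h0 h1 hN he j (J + 1)
    rw [pow_succ (1/4:ℝ) (J + 1)]
    linarith

/-- The arm does not stop above the correlation length. -/
theorem arm_stop {p : ℝ} (h0 : 0 ≤ p) (h1 : p ≤ 1) {N : ℕ} (hN : 2 ≤ N)
    (he : eps p N ≤ 1/100) (j J : ℕ) :
    arm p (2 * (2^j * N)) - arm p N * (1/4)^(2^j) ≤ arm p (2 * (2^J * (2^j * N))) := by
  have ok := okq h0 h1
  obtain ⟨M, hM⟩ : ∃ M : ℕ, M = 2^j * N := ⟨_, rfl⟩
  have hMN : N ≤ M := by rw [hM]; exact Nat.le_mul_of_pos_left _ (by positivity)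
  have hM2 : 2 ≤ M := hN.trans hMN
  obtain ⟨S, hS⟩ : ∃ S : Finset Edg, S = boxE (2 * (2^J * M)) := ⟨_, rfl⟩
  have hJM : M ≤ 2^J * M := Nat.le_mul_of_pos_left _ (by positivity)
  have s1 : boxE (2 * M) ⊆ S := by rw [hS]; exact boxE_mono (by omega)
  have s2 : boxE N ⊆ S := (boxE_mono (by omega)).trans s1
  obtain ⟨G, hG⟩ : ∃ G : Finset Edg → Prop,
      G = fun F => Circ M (2 * M : ℕ) F ∧ ∀ i ≤ J, Step M i F := ⟨_, rfl⟩
  have hGF : ∀ F, G F ↔ Circ M (2 * M : ℕ) F ∧ ∀ i ≤ J, Step M i F := fun F => by rw [hG]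
  have hGinc : IncrE S G := by
    intro F F' h _ hF
    rw [hGF] at hF ⊢
    exact ⟨hF.1.mono h, fun i hi => (hF.2 i hi).mono h⟩
  have e1 : 1 - (1/4 : ℝ)^(2^j) ≤ Pr (fun _ => p) S G := by
    have c1 := pr_circ_ge h0 h1 hM2 s1
    have c2 := steps_fail h0 h1 hN he j J (S := S) (by rw [hS, hM])
    rw [← hM] at c2
    have c3 := Pr_and_ge ok S (Circ M (2 * M : ℕ)) (fun F => ∀ i ≤ J, Step M i F)
    have c4 := eps_shift h0 h1 hN he j 0
    rw [pow_zero, one_mul, ← hM, pow_zero, mul_one] at c4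
    have c5 : Pr (fun _ => p) S (fun F => Circ M (2 * M : ℕ) F ∧ ∀ i ≤ J, Step M i F) =
        Pr (fun _ => p) S G := by rw [hG]
    rw [c5] at c3
    have c6 : 0 < (1/4 : ℝ)^(2^j) := by positivity
    have c7 : 0 < (1/4 : ℝ)^(J + 1) := by positivity
    nlinarith [mul_pos c6 c7]
  have e2 := Pr_harris_decr ok (S := S) (A := Arm N) (B := fun F => ¬ G F) (Arm_incr S N)
    (fun F F' h hs hF hF' => hF' (hGinc F F' h hs (not_not.mp hF)))
  rw [pr_Arm p s2, Pr_not] at e2
  have ha := arm_nonneg h0 h1 N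
  have e3 : Pr (fun _ => p) S (fun F => Arm N F ∧ ¬ G F) ≤ arm p N * (1/4)^(2^j) :=
    e2.trans (mul_le_mul_of_nonneg_left (by linarith) ha)
  have e4 : Pr (fun _ => p) S (Arm (2 * M)) ≤ Pr (fun _ => p) S (fun F => Arm N F ∧ ¬ G F) +
      Pr (fun _ => p) S (Arm (2 * (2^J * M))) := by
    refine le_trans (Pr_mono ok ?_) (Pr_or_le ok S _ _)
    intro F _ hF
    by_cases hg : G F
    · right
      obtain ⟨k1, k2⟩ := (hGF F).mp hg
      exact arm_of_chain hM2 J hF k1 k2
    · left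
      refine ⟨?_, hg⟩
      obtain ⟨v, hv, hr⟩ := hF
      obtain ⟨w, k1, k2, k3⟩ := first_exit (a := -(N:ℤ)) (b := N) (c := -(N:ℤ)) (d := N)
        (u := (0, 0)) (by unfold inR; simp) hr (by unfold onB at hv; push_cast at hv; omega)
      refine ⟨w, ⟨k1, k2⟩, k3.mono ?_⟩
      rintro e ⟨⟨k4, -⟩, k5⟩
      exact ⟨k4, k5⟩
  rw [pr_Arm p s1, pr_Arm p (show boxE (2 * (2^J * M)) ⊆ S by rw [hS])] at e4
  rw [← hM]
  linarith

theorem meas_inf : MeasurableSet {ω : sqLattice.edgeSet → Bool | (cluster0 ω).Infinite} := by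
  rw [infinite_eq]
  exact MeasurableSet.iInter (fun n => meas_event (boxE n) (Arm n))

/-- Large finite clusters above the critical point. -/
theorem tail_hi (p : unitInterval) {N : ℕ} (hN : 2 ≤ N) (he : eps p N ≤ 1/100) (j : ℕ) :
    (bondLaw p).real (ArmE (2 * (2^j * N)) ∩ {ω | (cluster0 ω).Finite}) ≤
      arm p N * (1/4)^(2^j) := by
  have h1 : arm p (2 * (2^j * N)) - arm p N * (1/4)^(2^j) ≤ theta p := by
    apply le_theta
    intro n
    refine (arm_stop p.2.1 p.2.2 hN he j n).trans (arm_anti p.2.1 p.2.2 ?_)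
    have h2 : n < 2^n := Nat.lt_two_pow_self
    have h3 : 1 ≤ 2^j * N := Nat.mul_pos (by positivity) (by omega)
    nlinarith
  have h2 : ArmE (2 * (2^j * N)) ∩ {ω | (cluster0 ω).Finite} =
      ArmE (2 * (2^j * N)) \ {ω | (cluster0 ω).Infinite} := by
    ext ω
    simp only [Set.mem_inter_iff, Set.mem_setOf_eq, Set.mem_diff, Set.not_infinite]
  have h3 : {ω : sqLattice.edgeSet → Bool | (cluster0 ω).Infinite} ⊆ ArmE (2 * (2^j * N)) := by
    intro ω hω
    exact (infinite_iff ω).mp hω _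
  rw [h2, measureReal_diff h3 meas_inf, law_armE]
  have h4 : (bondLaw p).real {ω | (cluster0 ω).Infinite} = theta p := rfl
  rw [h4]
  linarith

/-- Large clusters below the critical point. -/
theorem tail_lo (p : unitInterval) {N : ℕ} (hN : 2 ≤ N) (he : eps (1 - (p:ℝ)) N ≤ 1/100) {j : ℕ}
    (hj : 1 ≤ j) : (bondLaw p).real (ArmE (2 * (2^j * N)) ∩ {ω | (cluster0 ω).Finite}) ≤
      arm p N * (1/4)^(2^j) := by
  refine (measureReal_mono Set.inter_subset_left).trans ?_
  rw [law_armE]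
  exact Pool.Agent.W424.NC.arm_far p.2.1 p.2.2 hN he hj

end Pool.Agent.Helper859_AM
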