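import Pool.Agent.W424.NC.TwoLow

/-!
Bond percolation on `ℤ²`: adding one point to a set of points connected to the origin costs a
one-arm probability (near-critical window).
-/

set_option maxHeartbeats 1000000

namespace Pool.Agent.Helper859_AM

open H31K H974 Finset

/-- All the points of `V` are connected to the origin. -/
def TV (V : Finset Vtx) (F : Finset Edg) : Prop := ∀ v ∈ V, Reach (↑F : Set Edg) (0, 0) v

theorem TV_incr (S : Finset Edg) (V : Finset Vtx) : IncrE S (TV V) :=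
  fun _ _ h _ hF v hv => (hF v hv).mono (by exact_mod_cast h)

/-- First and last visit to a box whose edges have been added. -/
theorem touch {F : Set Edg} {a b c d : ℤ} {u v : Vtx} (h : Reach (F ∪ ↑(RE a b c d)) u v) :
    Reach F u v ∨ ∃ w w', inR a b c d w ∧ inR a b c d w' ∧ Reach F u w ∧ Reach F w' v := by
  induction h with
  | refl => exact Or.inl (Reach.refl _ _)
  | @tail v v' h1 hs ih =>
    obtain ⟨e, heG, hcase⟩ := hs
    by_cases hm : e ∈ RE a b c d
    · right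
      obtain ⟨m1, m2⟩ := ends_inR hm
      have hv : inR a b c d v ∧ inR a b c d v' := by
        rcases hcase with ⟨h3, h4⟩ | ⟨h3, h4⟩
        · rw [h3] at m1; rw [h4] at m2; exact ⟨m1, m2⟩
        · rw [h3] at m1; rw [h4] at m2; exact ⟨m2, m1⟩
      rcases ih with ih | ⟨w, w', k1, k2, k3, k4⟩
      · exact ⟨v, v', hv.1, hv.2, ih, Reach.refl _ _⟩
      · exact ⟨w, v', k1, hv.2, k3, Reach.refl _ _⟩
    · have hF : e ∈ F := by
        rcases heG with h | h
        · exact h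
        · exact absurd h hm
      have hadj : Adj F v v' := ⟨e, hF, hcase⟩
      rcases ih with ih | ⟨w, w', k1, k2, k3, k4⟩
      · exact Or.inl (ih.trans hadj.reach)
      · exact Or.inr ⟨w, w', k1, k2, k3, k4.trans hadj.reach⟩

/-- Outside the box of radius `8 r` around `(c1, c2)`. -/
def Out8 (c1 c2 : ℤ) (r : ℕ) (v : Vtx) : Prop :=
  v.1 ≤ c1 - 8 * r ∨ c1 + 8 * r ≤ v.1 ∨ v.2 ≤ c2 - 8 * r ∨ c2 + 8 * r ≤ v.2

theorem reroute {c1 c2 : ℤ} {r : ℕ} (hr : 1 ≤ r) {F : Finset Edg} (hO : OC c1 c2 r F)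
    {u v : Vtx} (hu : Out8 c1 c2 r u) (hv : Out8 c1 c2 r v)
    (h : Reach (↑(F ∪ Lam c1 c2 r) : Set Edg) u v) : Reach (↑F : Set Edg) u v := by
  obtain ⟨z, hz⟩ := circ_pt hr hO
  rw [Finset.coe_union] at h
  rcases touch (a := c1 - 4 * r) (b := c1 + 4 * r) (c := c2 - 4 * r) (d := c2 + 4 * r) h with
    h | ⟨w, w', k1, k2, k3, k4⟩
  · exact h
  · have m1 := hz w u k1 hu k3.symm
    have m2 := hz w' v k2 hv k4
    exact k3.trans ((m1.mono Set.inter_subset_left).trans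
      ((m2.mono Set.inter_subset_left).symm.trans k4))

theorem TV_reroute {c1 c2 : ℤ} {r : ℕ} (hr : 1 ≤ r) {F : Finset Edg} (hO : OC c1 c2 r F)
    {V : Finset Vtx} (h0 : Out8 c1 c2 r (0, 0)) (hV : ∀ v ∈ V, Out8 c1 c2 r v)
    (h : TV V (F ∪ Lam c1 c2 r)) : TV V F :=
  fun v hv => reroute hr hO h0 (hV v hv) (h v hv)

theorem pO_S {q κ : ℝ} {n : ℕ} (hW : H12S.Win q κ n) (c1 c2 : ℤ) {r : ℕ} (hr : 1 ≤ r)
    (hn : r + 1 ≤ n) {S : Finset Edg} (hS : Bg c1 c2 r ⊆ S) :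
    κ^4 ≤ Pr (fun _ => q) S (OC c1 c2 r) := by
  have h := pO_ge hW c1 c2 hr hn
  have e : Pr (fun _ => q) S (OC c1 c2 r) = pO q c1 c2 r := by
    unfold pO
    exact Pr_local hS (fun F _ => OC_local hr (Finset.Subset.refl _) F)
  rw [e]
  exact h

/-- The arm event around the new point. -/
theorem arm_at {c1 c2 : ℤ} {r : ℕ} {F : Finset Edg} (h0 : Out8 c1 c2 r (0, 0))
    (h : Reach (↑F : Set Edg) (0, 0) (c1, c2)) : Arm (4 * r) ((trl (-c1) (-c2)).mp F) := by
  unfold Out8 at h0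
  simp only at h0
  obtain ⟨w, k1, k2, k3⟩ := first_exit (a := c1 - 4 * r) (b := c1 + 4 * r) (c := c2 - 4 * r)
    (d := c2 + 4 * r) (u := (c1, c2)) (by unfold inR; simp only; omega) h.symm
    (by simp only; omega)
  obtain ⟨w1, w2⟩ := w
  have k4 := (trl (-c1) (-c2)).reach k3
  rw [trl_ψ, trl_ψ] at k4
  have e1 : c1 + -c1 = 0 := by ring
  have e2 : c2 + -c2 = 0 := by ring
  rw [e1, e2] at k4
  unfold inR at k1
  simp only at k1 k2
  refine ⟨(w1 + -c1, w2 + -c2), ⟨?_, ?_⟩, k4.mono ?_⟩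
  · unfold inR
    simp only
    push_cast
    omega
  · simp only
    push_cast
    omega
  · have e3 : boxE (4 * r) = (trl (-c1) (-c2)).mp
        (RE (c1 - 4 * r) (c1 + 4 * r) (c2 - 4 * r) (c2 + 4 * r)) := by
      rw [trl_RE]; unfold boxE; congr 1 <;> push_cast <;> ring
    rw [e3, LSym.coe_mp, LSym.coe_mp]
    rintro _ ⟨e, ⟨he1, he2⟩, rfl⟩
    exact ⟨⟨e, he1, rfl⟩, ⟨e, he2, rfl⟩⟩

/-- Adding a point. -/
theorem add_pt {q κ : ℝ} {n : ℕ} (hW : H12S.Win q κ n) {c1 c2 : ℤ} {r : ℕ} (hr : 1 ≤ r)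
    (hn : r + 1 ≤ n) {S : Finset Edg} (hS : Bg c1 c2 r ⊆ S) {V : Finset Vtx}
    (h0 : Out8 c1 c2 r (0, 0)) (hV : ∀ v ∈ V, Out8 c1 c2 r v) :
    κ^4 * Pr (fun _ => q) S (TV (insert (c1, c2) V)) ≤
      arm q (4 * r) * Pr (fun _ => q) S (TV V) := by
  have hq0 : 0 ≤ q := by linarith [hW.lo]
  have hq1 : q ≤ 1 := by linarith [hW.hi]
  have ok := okq hq0 hq1
  have hL : Lam c1 c2 r ⊆ S := Lam_sub_Bg.trans hS
  have s1 : Pr (fun _ => q) S (TV (insert (c1, c2) V)) ≤
      Pr (fun _ => q) S (fun F => TV V (F ∪ Lam c1 c2 r) ∧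
        Arm (4 * r) ((trl (-c1) (-c2)).mp F)) := by
    apply Pr_mono ok
    intro F _ hF
    refine ⟨fun v hv => ?_, arm_at h0 (hF _ (Finset.mem_insert_self _ _))⟩
    exact (hF v (Finset.mem_insert_of_mem hv)).mono
      (by exact_mod_cast (Finset.subset_union_left : F ⊆ F ∪ Lam c1 c2 r))
  have s2 := Pr_indep (p := fun _ => q) (U := S) (S := S \ Lam c1 c2 r) (T := Lam c1 c2 r)
    Finset.sdiff_subset hL Finset.sdiff_disjoint
    (A := fun F => TV V (F ∪ Lam c1 c2 r)) (B := fun F => Arm (4 * r) ((trl (-c1) (-c2)).mp F))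
    (by
      intro F hF
      have e : F ∩ (S \ Lam c1 c2 r) ∪ Lam c1 c2 r = F ∪ Lam c1 c2 r := by
        ext x
        simp only [Finset.mem_union, Finset.mem_inter, Finset.mem_sdiff]
        constructor
        · rintro (h | h)
          · exact Or.inl h.1
          · exact Or.inr h
        · rintro (h | h)
          · by_cases hx : x ∈ Lam c1 c2 r
            · exact Or.inr hx
            · exact Or.inl ⟨h, hF h, hx⟩
          · exact Or.inr h
      simp only [e])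
    (by
      intro F _
      rw [LSym.mp_inter]
      have e3 : (trl (-c1) (-c2)).mp (Lam c1 c2 r) = boxE (4 * r) := by
        unfold Lam
        rw [trl_RE]; unfold boxE; congr 1 <;> push_cast <;> ring
      rw [e3]
      exact Arm_local (Finset.Subset.refl _))
  have s3 : Pr (fun _ => q) S (fun F => Arm (4 * r) ((trl (-c1) (-c2)).mp F)) = arm q (4 * r) := by
    apply pr_shift_arm
    refine Finset.Subset.trans ?_ hL
    unfold Lam
    push_cast
    exact Finset.Subset.refl _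
  have s4 := Pr_harris ok (S := S) (A := fun F => TV V (F ∪ Lam c1 c2 r)) (B := OC c1 c2 r)
    (fun F G h _ hF v hv => (hF v hv).mono
      (by exact_mod_cast (Finset.union_subset_union_left h : F ∪ Lam c1 c2 r ⊆ G ∪ Lam c1 c2 r)))
    (fun F G h _ hF => OC_mono h hF)
  have s5 : Pr (fun _ => q) S (fun F => TV V (F ∪ Lam c1 c2 r) ∧ OC c1 c2 r F) ≤
      Pr (fun _ => q) S (TV V) := by
    apply Pr_mono ok
    rintro F _ ⟨k1, k2⟩
    exact TV_reroute hr k2 h0 hV k1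
  have s6 := pO_S hW c1 c2 hr hn hS
  have ha : 0 ≤ arm q (4 * r) := arm_nonneg hq0 hq1 _
  have hp : 0 ≤ Pr (fun _ => q) S (fun F => TV V (F ∪ Lam c1 c2 r)) := Pr_nonneg ok _ _
  rw [s2, s3] at s1
  have s7 : Pr (fun _ => q) S (fun F => TV V (F ∪ Lam c1 c2 r)) * κ^4 ≤
      Pr (fun _ => q) S (TV V) :=
    (mul_le_mul_of_nonneg_left s6 hp).trans (s4.trans s5)
  have hκ : 0 ≤ κ^4 := by have := hW.kpos; positivity
  calc κ^4 * Pr (fun _ => q) S (TV (insert (c1, c2) V))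
      ≤ κ^4 * (Pr (fun _ => q) S (fun F => TV V (F ∪ Lam c1 c2 r)) * arm q (4 * r)) :=
        mul_le_mul_of_nonneg_left s1 hκ
    _ = arm q (4 * r) * (Pr (fun _ => q) S (fun F => TV V (F ∪ Lam c1 c2 r)) * κ^4) := by ring
    _ ≤ _ := mul_le_mul_of_nonneg_left s7 ha

end Pool.Agent.Helper859_AM
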