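import Pool.Agent.Helper859_AM.Lower

/-!
Bond percolation on `ℤ²` (critical parameter `1/2`): all the moments of the size of the finite
cluster of the origin near the critical point, up to constants:
`E_p (|C| ^ k ; |C| < ∞)` is of order `|p - 1/2| ^ (-(91 k - 5) / 36)` for every `k ≥ 1`.
So `γ = γ' = 43/18` (`k = 1`) and the gap exponent is `Δ = 91/36`, on both sides of the critical
point.
-/

namespace Pool.Agent.Helper859_AM.AllMoments

open MeasureTheory

/-- The square lattice: two points of `ℤ²` are adjacent when they differ by one in exactly one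
coordinate. -/
def Z2 : SimpleGraph (ℤ × ℤ) where
  Adj u v := |u.1 - v.1| + |u.2 - v.2| = 1
  symm := ⟨fun u v h => by rw [abs_sub_comm v.1, abs_sub_comm v.2]; exact h⟩
  loopless := ⟨fun u h => by simp at h⟩

/-- Bond percolation: every edge of the square lattice is open (`true`) with probability `p`,
independently of the other edges. -/
noncomputable def perc (p : unitInterval) : Measure (Z2.edgeSet → Bool) :=
  Measure.infinitePi (fun _ => ProbabilityTheory.bernoulliMeasure true false p)

/-- The graph of the open edges. -/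
def openGraph (ω : Z2.edgeSet → Bool) : SimpleGraph (ℤ × ℤ) :=
  SimpleGraph.fromEdgeSet {e | ∃ h : e ∈ Z2.edgeSet, ω ⟨e, h⟩ = true}

/-- The open cluster of the origin. -/
def cluster (ω : Z2.edgeSet → Bool) : Set (ℤ × ℤ) := {v | (openGraph ω).Reachable (0, 0) v}

/-- The `k`-th moment of the number of vertices of the cluster of the origin. -/
noncomputable def moment (k : ℕ) (p : unitInterval) : ENNReal :=
  ∫⁻ ω, ((cluster ω).encard : ENNReal) ^ k ∂(perc p)

/-- The `k`-th moment of the number of vertices of the cluster of the origin, on the event that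
this cluster is finite. -/
noncomputable def finMoment (k : ℕ) (p : unitInterval) : ENNReal :=
  ∫⁻ ω, Set.indicator {ω | (cluster ω).Finite} (fun ω => ((cluster ω).encard : ENNReal) ^ k) ω
    ∂(perc p)

theorem moment_eq (k : ℕ) (p : unitInterval) (hp : (p : ℝ) < 1 / 2) :
    moment k p = finMoment k p := by
  unfold moment finMoment
  apply lintegral_congr_ae
  have h1 : (H974.bondLaw p).real {ω | (H974.cluster0 ω).Infinite} = 0 :=
    H974.theta_half_le hp.le
  have h2 : (H974.bondLaw p) {ω | (H974.cluster0 ω).Infinite} = 0 := by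
    rw [measureReal_def, ENNReal.toReal_eq_zero_iff] at h1
    exact h1.resolve_right (measure_ne_top _ _)
  have h3 : ∀ᵐ ω ∂(perc p), (cluster ω).Finite := by
    rw [ae_iff]
    exact h2
  filter_upwards [h3] with ω hω
  rw [Set.indicator_of_mem (show ω ∈ {ω | (cluster ω).Finite} from hω)]

/-- **The moments of the cluster size near the critical point.** -/
theorem result : ∀ k : ℕ, 1 ≤ k → ∃ c C : ℝ, 0 < c ∧ 0 < C ∧
    (∀ p : unitInterval, (p : ℝ) < 1 / 2 →
      ENNReal.ofReal (c * (1 / 2 - (p : ℝ)) ^ (-((91 * k - 5) / 36) : ℝ)) ≤ moment k p ∧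
      moment k p ≤ ENNReal.ofReal (C * (1 / 2 - (p : ℝ)) ^ (-((91 * k - 5) / 36) : ℝ))) ∧
    (∀ p : unitInterval, 1 / 2 < (p : ℝ) → (p : ℝ) ≤ 3 / 4 →
      ENNReal.ofReal (c * ((p : ℝ) - 1 / 2) ^ (-((91 * k - 5) / 36) : ℝ)) ≤ finMoment k p) ∧
    (∀ p : unitInterval, 1 / 2 < (p : ℝ) →
      finMoment k p ≤ ENNReal.ofReal (C * ((p : ℝ) - 1 / 2) ^ (-((91 * k - 5) / 36) : ℝ))) := by
  intro k hk
  obtain ⟨m, rfl⟩ : ∃ m : ℕ, k = m + 1 := ⟨k - 1, by omega⟩
  obtain ⟨C, hC, hup⟩ := Pool.Agent.Helper859_AM.upper m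
  obtain ⟨c, hc, hlow⟩ := Pool.Agent.Helper859_AM.lower m
  refine ⟨c, C, hc, hC, ?_, ?_, ?_⟩
  · intro p hp
    have h1 := hup p hp.ne
    have h2 := hlow p hp.ne (by linarith)
    have e : |(p:ℝ) - 1/2| = 1/2 - (p:ℝ) := by rw [abs_of_neg (by linarith)]; ring
    rw [e] at h1 h2
    rw [moment_eq _ p hp]
    push_cast
    exact ⟨h2, h1⟩
  · intro p hp hp2
    have h2 := hlow p hp.ne' hp2
    rw [abs_of_pos (by linarith)] at h2
    push_cast
    exact h2
  · intro p hp
    have h1 := hup p hp.ne'
    rw [abs_of_pos (by linarith)] at h1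
    push_cast
    exact h1

end Pool.Agent.Helper859_AM.AllMoments
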