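import Pool.Agent.Helper859_AM.Sum
import Pool.Agent.W424.NC.Corr

/-!
Bond percolation on `ℤ²`: passage from finite volume to infinite volume for the moments.
-/

set_option maxHeartbeats 1000000

namespace Pool.Agent.Helper859_AM

open H31K H974 Finset MeasureTheory
open Pool.Agent.H160R2.CV (nv bx)

/-- The number of points of `D` in the cluster of the origin. -/
noncomputable def nD (D : Finset Vtx) (ω : sqLattice.edgeSet → Bool) : ENNReal :=
  ∑ x ∈ D, Set.indicator {ω | x ∈ cluster0 ω} (fun _ => (1 : ENNReal)) ω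

theorem nD_meas (D : Finset Vtx) : Measurable (nD D) := by
  unfold nD
  exact Finset.measurable_fun_sum D (fun x _ => measurable_one.indicator (t10_meas x))

theorem lint_FF (p : unitInterval) (S : Finset Edg) {g : Finset Edg → ℝ} (hg : ∀ F, 0 ≤ g F) :
    ∫⁻ ω, ENNReal.ofReal (g (FF S ω)) ∂(bondLaw p) = ENNReal.ofReal (Ex (fun _ => (p:ℝ)) S g) := by
  classical
  have h1 : ∀ ω : sqLattice.edgeSet → Bool, ENNReal.ofReal (g (FF S ω)) =
      ∑ T ∈ S.powerset, Set.indicator {ω | FF S ω = T} (fun _ => ENNReal.ofReal (g T)) ω := by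
    intro ω
    rw [Finset.sum_eq_single (FF S ω)]
    · rw [Set.indicator_of_mem (show ω ∈ {ω' | FF S ω' = FF S ω} from rfl)]
    · intro T _ hT
      rw [Set.indicator_of_notMem]
      intro h
      exact hT (show FF S ω = T from h).symm
    · intro h
      exact absurd (Finset.mem_powerset.mpr (Finset.filter_subset _ _)) h
  rw [lintegral_congr h1, lintegral_finset_sum]
  · unfold Ex
    rw [ENNReal.ofReal_sum_of_nonneg]
    · apply Finset.sum_congr rfl
      intro T hT
      rw [lintegral_indicator_const (meas_FF S T)]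
      have h2 := law_eq p (Finset.mem_powerset.mp hT)
      have h3 : (bondLaw p) {ω | FF S ω = T} =
          ENNReal.ofReal ((∏ _e ∈ T, (p:ℝ)) * ∏ _e ∈ S \ T, (1 - (p:ℝ))) := by
        rw [← h2, measureReal_def, ENNReal.ofReal_toReal (measure_ne_top _ _)]
      rw [h3, ← ENNReal.ofReal_mul (hg T)]
      congr 1
      ring
    · intro T _
      apply mul_nonneg (mul_nonneg _ _) (hg T)
      · exact Finset.prod_nonneg (fun _ _ => p.2.1)
      · exact Finset.prod_nonneg (fun _ _ => by linarith [p.2.2])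
  · intro T _
    exact measurable_const.indicator (meas_FF S T)

theorem XD_FF_mono (D : Finset Vtx) {m m' : ℕ} (h : m ≤ m') (ω : sqLattice.edgeSet → Bool) :
    XD D (FF (boxE m) ω) ≤ XD D (FF (boxE m') ω) := by
  apply Finset.sum_le_sum
  intro x _
  apply ind_mono
  intro hx
  refine Reach.mono ?_ hx
  rw [FF_coe, FF_coe]
  exact Set.inter_subset_inter_right _ (by exact_mod_cast boxE_mono h)

theorem ofReal_ind (Q : Prop) [Decidable Q] : ENNReal.ofReal (ind Q) = if Q then 1 else 0 := by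
  split_ifs with h
  · rw [ind_of h, ENNReal.ofReal_one]
  · rw [ind_not_of h, ENNReal.ofReal_zero]

theorem nD_le (D : Finset Vtx) (ω : sqLattice.edgeSet → Bool) :
    ∃ m0 : ℕ, ∀ m, m0 ≤ m → nD D ω = ENNReal.ofReal (XD D (FF (boxE m) ω)) := by
  classical
  have h1 : ∀ x : Vtx, ∃ m : ℕ, x ∈ cluster0 ω → TP x (FF (boxE m) ω) := by
    intro x
    by_cases hx : x ∈ cluster0 ω
    · obtain ⟨N, hN⟩ := Pool.Agent.W424.NC.reach_box (t10_reach hx)
      exact ⟨N, fun _ => by unfold TP; rw [FF_coe]; exact hN⟩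
    · exact ⟨0, fun h => absurd h hx⟩
  choose m hm using h1
  refine ⟨D.sup m, fun M hM => ?_⟩
  unfold nD XD
  rw [ENNReal.ofReal_sum_of_nonneg (fun _ _ => ind_nonneg _)]
  apply Finset.sum_congr rfl
  intro x hx
  rw [ofReal_ind, Set.indicator_apply]
  have hiff : x ∈ cluster0 ω ↔ TP x (FF (boxE M) ω) := by
    constructor
    · intro h
      refine Reach.mono ?_ (hm x h)
      rw [FF_coe, FF_coe]
      exact Set.inter_subset_inter_right _
        (by exact_mod_cast boxE_mono ((Finset.le_sup hx).trans hM))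
    · intro h
      have h3 : Reach (↑(FF (boxE M) ω) : Set Edg) (0, 0) x := h
      rw [FF_coe] at h3
      exact (open_reach ω _ _).mpr (h3.mono Set.inter_subset_left)
  exact if_congr hiff rfl rfl

/-- Moments in infinite volume. -/
theorem lint_nD (p : unitInterval) (D : Finset Vtx) (k : ℕ) (m0 : ℕ) {U : ℝ}
    (hU : ∀ m, m0 ≤ m → Ex (fun _ => (p:ℝ)) (boxE m) (fun F => XD D F ^ k) ≤ U) :
    ∫⁻ ω, nD D ω ^ k ∂(bondLaw p) ≤ ENNReal.ofReal U := by
  obtain ⟨f, hf⟩ : ∃ f : ℕ → (sqLattice.edgeSet → Bool) → ENNReal,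
      f = fun m ω => ENNReal.ofReal (XD D (FF (boxE (m0 + m)) ω) ^ k) := ⟨_, rfl⟩
  have hfm : ∀ m ω, f m ω = ENNReal.ofReal (XD D (FF (boxE (m0 + m)) ω) ^ k) :=
    fun m ω => by rw [hf]
  have hmeas : ∀ m, Measurable (f m) := by
    intro m
    have e : f m = fun ω => (fun F : Finset Edg => ENNReal.ofReal (XD D F ^ k))
        (FF (boxE (m0 + m)) ω) := by
      funext ω; rw [hfm]
    rw [e]
    intro s _
    exact meas_event (boxE (m0 + m)) (fun F => ENNReal.ofReal (XD D F ^ k) ∈ s)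
  have hmono : Monotone f := by
    intro a b hab ω
    rw [hfm, hfm]
    apply ENNReal.ofReal_le_ofReal
    exact pow_le_pow_left₀ (XD_nonneg _ _) (XD_FF_mono D (by omega) ω) k
  have hle : ∀ ω, nD D ω ^ k ≤ ⨆ m, f m ω := by
    intro ω
    obtain ⟨M, hM⟩ := nD_le D ω
    refine le_trans (le_of_eq ?_) (le_iSup (fun m => f m ω) M)
    rw [hM (m0 + M) (by omega), hfm, ENNReal.ofReal_pow (XD_nonneg _ _)]
  calc ∫⁻ ω, nD D ω ^ k ∂(bondLaw p) ≤ ∫⁻ ω, ⨆ m, f m ω ∂(bondLaw p) := lintegral_mono hle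
    _ = ⨆ m, ∫⁻ ω, f m ω ∂(bondLaw p) := lintegral_iSup hmeas hmono
    _ ≤ ENNReal.ofReal U := by
        apply iSup_le
        intro m
        have e : ∫⁻ ω, f m ω ∂(bondLaw p) =
            ENNReal.ofReal (Ex (fun _ => (p:ℝ)) (boxE (m0 + m)) (fun F => XD D F ^ k)) := by
          rw [← lint_FF p _ (fun F => pow_nonneg (XD_nonneg D F) k)]
          exact lintegral_congr (fun ω => hfm m ω)
        rw [e]
        exact ENNReal.ofReal_le_ofReal (hU _ (by omega))

end Pool.Agent.Helper859_AM
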