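import Pool.Agent.Helper859_AM.Add
import Pool.Agent.H160R2.CV.Ratio

/-!
Bond percolation on `ℤ²`: moments of the number of points of a box connected to the origin
(near-critical window).
-/

set_option maxHeartbeats 1000000

namespace Pool.Agent.Helper859_AM

open H31K H974 Finset
open Pool.Agent.H160R2.CV (nv bx)

/-- Adding a point, with an abstract cost function. -/
theorem add_K {q κ : ℝ} (h0 : 0 ≤ q) (h1 : q ≤ 1) (hκ : 0 < κ) {n : ℕ}
    (hW : 2 ≤ n → H12S.Win q κ n) {K : ℕ → ℝ}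
    (hK0 : ∀ d, 0 ≤ K d) (hK1 : ∀ d, min d n / 8 = 0 → 1 ≤ K d)
    (hK2 : ∀ d, 1 ≤ min d n / 8 → arm q (4 * (min d n / 8)) ≤ κ^4 * K d)
    (V : Finset Vtx) (x : Vtx) {S : Finset Edg} (hS : boxE (nv x + n) ⊆ S) :
    Pr (fun _ => q) S (TV (insert x V)) ≤
      (∑ v ∈ insert ((0, 0) : Vtx) V, K (nv (x - v))) * Pr (fun _ => q) S (TV V) := by
  classical
  have ok := okq h0 h1
  obtain ⟨v0, hv0, hmin⟩ := Finset.exists_min_image (insert ((0, 0) : Vtx) V)
    (fun v => nv (x - v)) ⟨_, Finset.mem_insert_self _ _⟩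
  obtain ⟨d, hd⟩ : ∃ d : ℕ, d = nv (x - v0) := ⟨_, rfl⟩
  have hsum : K d ≤ ∑ v ∈ insert ((0, 0) : Vtx) V, K (nv (x - v)) := by
    rw [hd]
    exact Finset.single_le_sum (f := fun v => K (nv (x - v))) (fun v _ => hK0 _) hv0
  have hP : 0 ≤ Pr (fun _ => q) S (TV V) := Pr_nonneg ok _ _
  refine le_trans ?_ (mul_le_mul_of_nonneg_right hsum hP)
  obtain ⟨r, hr⟩ : ∃ r : ℕ, r = min d n / 8 := ⟨_, rfl⟩
  rcases Nat.eq_zero_or_pos r with hr0 | hr1
  · have hK := hK1 d (by rw [← hr]; exact hr0)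
    have hm : Pr (fun _ => q) S (TV (insert x V)) ≤ Pr (fun _ => q) S (TV V) := by
      apply Pr_mono ok
      intro F _ hF v hv
      exact hF v (Finset.mem_insert_of_mem hv)
    calc _ ≤ 1 * Pr (fun _ => q) S (TV V) := by rw [one_mul]; exact hm
      _ ≤ _ := mul_le_mul_of_nonneg_right hK hP
  · have hrd : 8 * r ≤ d := by rw [hr]; omega
    have hrn : 8 * r ≤ n := by rw [hr]; omega
    have hout : ∀ v ∈ insert ((0, 0) : Vtx) V, Out8 x.1 x.2 r v := by
      intro v hv
      have h2 : d ≤ nv (x - v) := by rw [hd]; exact hmin v hv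
      unfold nv at h2
      simp only [Prod.fst_sub, Prod.snd_sub] at h2
      unfold Out8
      have h3 : 8 * r ≤ max (x.1 - v.1).natAbs (x.2 - v.2).natAbs := hrd.trans h2
      rcases le_max_iff.mp h3 with h | h
      · omega
      · omega
    have hBg : Bg x.1 x.2 r ⊆ S := by
      refine Finset.Subset.trans ?_ hS
      obtain ⟨m, hm⟩ : ∃ m : ℕ, m = nv x := ⟨_, rfl⟩
      rw [← hm]
      unfold Bg boxE
      unfold nv at hm
      have h4 : x.1.natAbs ≤ m := by rw [hm]; exact le_max_left _ _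
      have h5 : x.2.natAbs ≤ m := by rw [hm]; exact le_max_right _ _
      apply RE_subset <;> push_cast <;> omega
    have hmain := add_pt (hW (by omega)) (c1 := x.1) (c2 := x.2) hr1 (by omega) hBg (V := V)
      (hout _ (Finset.mem_insert_self _ _)) (fun v hv => hout v (Finset.mem_insert_of_mem hv))
    have hK := hK2 d (by rw [← hr]; exact hr1)
    rw [← hr] at hK
    have h6 : κ^4 * Pr (fun _ => q) S (TV (insert x V)) ≤
        κ^4 * (K d * Pr (fun _ => q) S (TV V)) := by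
      calc _ ≤ arm q (4 * r) * Pr (fun _ => q) S (TV V) := hmain
        _ ≤ κ^4 * K d * Pr (fun _ => q) S (TV V) := mul_le_mul_of_nonneg_right hK hP
        _ = _ := by ring
    exact le_of_mul_le_mul_left h6 (by positivity)

/-- The number of points of `D` connected to the origin. -/
noncomputable def XD (D : Finset Vtx) (F : Finset Edg) : ℝ := ∑ x ∈ D, ind (TP x F)

theorem XD_nonneg (D : Finset Vtx) (F : Finset Edg) : 0 ≤ XD D F :=
  Finset.sum_nonneg (fun _ _ => ind_nonneg _)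

/-- The sums of the connection probabilities. -/
noncomputable def Wk (q : ℝ) (S : Finset Edg) (D : Finset Vtx) : ℕ → Finset Vtx → ℝ
  | 0, V => Pr (fun _ => q) S (TV V)
  | k + 1, V => ∑ x ∈ D, Wk q S D k (insert x V)

theorem ind_TV (V : Finset Vtx) (x : Vtx) (F : Finset Edg) :
    ind (TP x F) * ind (TV V F) = ind (TV (insert x V) F) := by
  rw [← ind_and]
  apply ind_congr
  unfold TV TP
  simp only [Finset.mem_insert, forall_eq_or_imp]

theorem Ex_pow (q : ℝ) (S : Finset Edg) (D : Finset Vtx) (k : ℕ) (V : Finset Vtx) :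
    Ex (fun _ => q) S (fun F => XD D F ^ k * ind (TV V F)) = Wk q S D k V := by
  induction k generalizing V with
  | zero =>
    simp only [pow_zero, one_mul]
    rfl
  | succ k ih =>
    have e : ∀ F, XD D F ^ (k + 1) * ind (TV V F) =
        ∑ x ∈ D, XD D F ^ k * ind (TV (insert x V) F) := by
      intro F
      rw [← Finset.mul_sum, Finset.sum_congr rfl (fun x _ => (ind_TV V x F).symm),
        ← Finset.sum_mul]
      unfold XD
      ring
    simp only [e]
    rw [Ex_sum]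
    exact Finset.sum_congr rfl (fun x _ => ih (insert x V))

theorem Wk_nonneg {q : ℝ} (h0 : 0 ≤ q) (h1 : q ≤ 1) (S : Finset Edg) (D : Finset Vtx) (k : ℕ)
    (V : Finset Vtx) : 0 ≤ Wk q S D k V := by
  rw [← Ex_pow]
  exact Ex_nonneg (okq h0 h1) (fun F _ => mul_nonneg (pow_nonneg (XD_nonneg _ _) _) (ind_nonneg _))

/-- The recursive bound. -/
theorem Wk_le {q : ℝ} (h0 : 0 ≤ q) (h1 : q ≤ 1) {S : Finset Edg} {D : Finset Vtx} {K : ℕ → ℝ}
    {A : ℝ} (hA0 : 0 ≤ A)
    (hadd : ∀ V : Finset Vtx, ∀ x ∈ D, Pr (fun _ => q) S (TV (insert x V)) ≤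
      (∑ v ∈ insert ((0, 0) : Vtx) V, K (nv (x - v))) * Pr (fun _ => q) S (TV V))
    (hA : ∀ v ∈ insert ((0, 0) : Vtx) D, ∑ x ∈ D, K (nv (x - v)) ≤ A) (k : ℕ) :
    ∀ (c : ℕ) (V : Finset Vtx), V ⊆ D → V.card ≤ c →
      Wk q S D k V ≤ (A * (c + k)) ^ k * Pr (fun _ => q) S (TV V) := by
  classical
  have ok := okq h0 h1
  induction k with
  | zero =>
    intro c V _ _
    simp only [pow_zero, one_mul]
    exact le_rfl
  | succ k ih =>
    intro c V hV hc
    have hP : 0 ≤ Pr (fun _ => q) S (TV V) := Pr_nonneg ok _ _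
    have hstep : ∀ x ∈ D, Wk q S D k (insert x V) ≤ (A * ((c + 1 : ℕ) + k)) ^ k *
        ((∑ v ∈ insert ((0, 0) : Vtx) V, K (nv (x - v))) * Pr (fun _ => q) S (TV V)) := by
      intro x hx
      refine (ih (c + 1) (insert x V) (Finset.insert_subset hx hV)
        ((Finset.card_insert_le _ _).trans (by omega))).trans ?_
      exact mul_le_mul_of_nonneg_left (hadd V x hx) (by positivity)
    have hsum : ∑ x ∈ D, ∑ v ∈ insert ((0, 0) : Vtx) V, K (nv (x - v)) ≤ (c + 1) * A := by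
      rw [Finset.sum_comm]
      have h2 : ∀ v ∈ insert ((0, 0) : Vtx) V, ∑ x ∈ D, K (nv (x - v)) ≤ A := fun v hv =>
        hA v (Finset.insert_subset_insert _ hV hv)
      refine (Finset.sum_le_sum h2).trans ?_
      rw [Finset.sum_const, nsmul_eq_mul]
      apply mul_le_mul_of_nonneg_right _ hA0
      have h3 : (insert ((0, 0) : Vtx) V).card ≤ c + 1 :=
        (Finset.card_insert_le _ _).trans (by omega)
      exact_mod_cast h3
    calc Wk q S D (k + 1) V = ∑ x ∈ D, Wk q S D k (insert x V) := rfl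
      _ ≤ ∑ x ∈ D, (A * ((c + 1 : ℕ) + k)) ^ k *
        ((∑ v ∈ insert ((0, 0) : Vtx) V, K (nv (x - v))) * Pr (fun _ => q) S (TV V)) :=
          Finset.sum_le_sum hstep
      _ = (A * ((c + 1 : ℕ) + k)) ^ k * (∑ x ∈ D, ∑ v ∈ insert ((0, 0) : Vtx) V,
          K (nv (x - v))) * Pr (fun _ => q) S (TV V) := by
          rw [← Finset.mul_sum, ← Finset.sum_mul]
          ring
      _ ≤ (A * ((c + 1 : ℕ) + k)) ^ k * ((c + 1) * A) * Pr (fun _ => q) S (TV V) := by
          apply mul_le_mul_of_nonneg_right _ hP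
          exact mul_le_mul_of_nonneg_left hsum (by positivity)
      _ ≤ (A * (c + (k + 1 : ℕ))) ^ (k + 1) * Pr (fun _ => q) S (TV V) := by
          apply mul_le_mul_of_nonneg_right _ hP
          have e : A * ((c + 1 : ℕ) + (k:ℝ)) = A * (c + (k + 1 : ℕ)) := by push_cast; ring
          rw [e, pow_succ]
          apply mul_le_mul_of_nonneg_left _ (by positivity)
          have hk : (0:ℝ) ≤ k := Nat.cast_nonneg _
          have : (c:ℝ) + 1 ≤ c + (k + 1 : ℕ) := by push_cast; linarith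
          calc ((c:ℝ) + 1) * A ≤ (c + (k + 1 : ℕ)) * A := mul_le_mul_of_nonneg_right this hA0
            _ = _ := mul_comm _ _

/-- Moments of the number of points connected to the origin. -/
theorem mom_bound {q : ℝ} (h0 : 0 ≤ q) (h1 : q ≤ 1) {S : Finset Edg} {D : Finset Vtx}
    {K : ℕ → ℝ} {A : ℝ} (hA0 : 0 ≤ A)
    (hadd : ∀ V : Finset Vtx, ∀ x ∈ D, Pr (fun _ => q) S (TV (insert x V)) ≤
      (∑ v ∈ insert ((0, 0) : Vtx) V, K (nv (x - v))) * Pr (fun _ => q) S (TV V))
    (hA : ∀ v ∈ insert ((0, 0) : Vtx) D, ∑ x ∈ D, K (nv (x - v)) ≤ A) (k : ℕ) :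
    Ex (fun _ => q) S (fun F => XD D F ^ (k + 1)) ≤
      (A * (1 + k)) ^ k * ∑ x ∈ D, Pr (fun _ => q) S (TP x) := by
  classical
  have e : Ex (fun _ => q) S (fun F => XD D F ^ (k + 1)) = Wk q S D (k + 1) ∅ := by
    rw [← Ex_pow]
    apply Ex_congr
    intro F _
    rw [ind_of (show TV ∅ F from fun v hv => absurd hv (Finset.notMem_empty v)), mul_one]
  rw [e, Finset.mul_sum]
  show ∑ x ∈ D, Wk q S D k (insert x ∅) ≤ _
  apply Finset.sum_le_sum
  intro x hx
  refine (Wk_le h0 h1 hA0 hadd hA k 1 (insert x ∅) (Finset.insert_subset hx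
    (Finset.empty_subset _)) (Finset.card_insert_le _ _)).trans (le_of_eq ?_)
  have e2 : Pr (fun _ => q) S (TV (insert x ∅)) = Pr (fun _ => q) S (TP x) := by
    apply Pr_congr
    intro F _
    unfold TV TP
    simp
  rw [e2]
  push_cast
  ring

end Pool.Agent.Helper859_AM
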