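import Pool.Agent.Helper859_AM.Tail
import Pool.Agent.Y554.NC.Theta

/-!
Bond percolation on `ℤ²`: the scales below and above the correlation length.
-/

set_option maxHeartbeats 1000000

namespace Pool.Agent.Helper859_AM

open H31K H974 Finset MeasureTheory

theorem scales : ∃ κ C0 c1 E : ℝ, 0 < κ ∧ 0 < C0 ∧ 0 < c1 ∧ 0 < E ∧ ∀ p : unitInterval,
    (p:ℝ) ≠ 1/2 → ∃ n N : ℕ, Sc p κ C0 n ∧ n ≤ N ∧ 2 ≤ N ∧
      c1 * |(p:ℝ) - 1/2| ^ (-(4/3 : ℝ)) ≤ n ∧ (N:ℝ) ≤ E * |(p:ℝ) - 1/2| ^ (-(4/3 : ℝ)) ∧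
      ∀ j : ℕ, 1 ≤ j → (bondLaw p).real (ArmE (2 * (2^j * N)) ∩ {ω | (cluster0 ω).Finite}) ≤
        C0 * (n:ℝ) ^ (-(5/48 : ℝ)) * (1/4)^(2^j) := by
  obtain ⟨κ, β, hκ, hβ, hst⟩ := Pool.Agent.W424.NC.armS
  obtain ⟨cc, C, hcc, hC, harm⟩ := Pool.Agent.W424.NC.arm_crit
  obtain ⟨E0, hE0, hfar⟩ := Pool.Agent.W424.NC.farS
  refine ⟨κ, 3 * C + 1, β ^ (4/3 : ℝ) / 2, E0 + 3 + β ^ (4/3 : ℝ), hκ, by positivity,
    by positivity, by positivity, ?_⟩
  intro p hp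
  obtain ⟨s, hs⟩ : ∃ s : ℝ, s = |(p:ℝ) - 1/2| := ⟨_, rfl⟩
  have hs0 : 0 < s := by rw [hs]; exact abs_pos.mpr (sub_ne_zero.mpr hp)
  have hs1 : s ≤ 1/2 := by
    rw [hs, abs_le]
    constructor
    · linarith [p.2.1]
    · linarith [p.2.2]
  rw [← hs]
  obtain ⟨x, hx⟩ : ∃ x : ℝ, x = s ^ (-(4/3 : ℝ)) := ⟨_, rfl⟩
  have hx1 : 1 ≤ x := by
    rw [hx]
    exact Real.one_le_rpow_of_pos_of_le_one_of_nonpos hs0 (by linarith) (by norm_num)
  rw [← hx]
  have hβ43 : 0 < β ^ (4/3 : ℝ) := by positivity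
  -- the lower scale
  obtain ⟨n, hSc, hn1, hn2⟩ : ∃ n : ℕ, Sc p κ (3 * C + 1) n ∧ β ^ (4/3 : ℝ) / 2 * x ≤ n ∧
      (n:ℝ) ≤ β ^ (4/3 : ℝ) * x + 1 := by
    rcases le_or_gt s β with hsb | hsb
    · obtain ⟨n, hn1, hwin, hnx, hxn⟩ := Pool.Agent.Y554.NC.scale_exists hβ hs0 hsb
      have e : (β/s) ^ (4/3 : ℝ) = β ^ (4/3 : ℝ) * x := by
        rw [Real.div_rpow hβ.le hs0.le, hx, Real.rpow_neg hs0.le, div_eq_mul_inv]
      rw [e] at hnx hxn
      refine ⟨n, ⟨hn1, hκ, by positivity, ?_, ?_⟩, by linarith, by linarith⟩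
      · intro _
        refine (hst n hn1 p ?_).1
        rw [← hs]
        exact hwin
      · intro m hm hmn
        have hm0 : (0:ℝ) < m := by exact_mod_cast hm
        have h1 : |(p:ℝ) - 1/2| ≤ β * (m:ℝ) ^ (-(3/4 : ℝ)) := by
          rw [← hs]
          refine hwin.trans (mul_le_mul_of_nonneg_left ?_ hβ.le)
          exact Real.rpow_le_rpow_of_nonpos hm0 (by exact_mod_cast hmn) (by norm_num)
        have h2 := (hst m hm p h1).2.1
        have h3 := (harm m hm).2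
        have h4 : 0 ≤ (m:ℝ) ^ (-(5/48 : ℝ)) := by positivity
        calc arm p m ≤ 3 * (C * (m:ℝ) ^ (-(5/48 : ℝ))) := by linarith
          _ ≤ (3 * C + 1) * (m:ℝ) ^ (-(5/48 : ℝ)) := by nlinarith
    · refine ⟨1, ⟨le_rfl, hκ, by positivity, fun h => absurd h (by norm_num), ?_⟩, ?_, ?_⟩
      · intro m hm hmn
        have : m = 1 := by omega
        subst this
        have h1 := arm_le_one p.2.1 p.2.2 1
        rw [Nat.cast_one, Real.one_rpow, mul_one]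
        linarith
      · have h1 : x ≤ β ^ (-(4/3 : ℝ)) := by
          rw [hx]
          exact Real.rpow_le_rpow_of_nonpos hβ hsb.le (by norm_num)
        have h2 : β ^ (4/3 : ℝ) * β ^ (-(4/3 : ℝ)) = 1 := by
          rw [← Real.rpow_add hβ]; norm_num
        have h3 := mul_le_mul_of_nonneg_left h1 hβ43.le
        have h4 : 0 ≤ β ^ (4/3 : ℝ) * x := by positivity
        push_cast
        linarith
      · have h4 : 0 ≤ β ^ (4/3 : ℝ) * x := by positivity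
        push_cast
        linarith
  obtain ⟨N, hN⟩ : ∃ N : ℕ, N = max (⌈E0 * x⌉₊ + 1 + 1) n := ⟨_, rfl⟩
  have hN2 : 2 ≤ N := by rw [hN]; exact (by omega : 2 ≤ ⌈E0 * x⌉₊ + 1 + 1).trans (le_max_left _ _)
  have hnN : n ≤ N := by rw [hN]; exact le_max_right _ _
  have hNE : E0 * x ≤ N := by
    have h1 := Nat.le_ceil (E0 * x)
    have h2 : ((⌈E0 * x⌉₊ + 1 + 1 : ℕ) : ℝ) ≤ N := by rw [hN]; exact_mod_cast le_max_left _ _
    push_cast at h2
    linarith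
  have hNle : (N:ℝ) ≤ (E0 + 3 + β ^ (4/3 : ℝ)) * x := by
    have h1 := Nat.ceil_lt_add_one (a := E0 * x) (by positivity)
    have h2 : 0 ≤ β ^ (4/3 : ℝ) * x := by positivity
    have h3 : 0 ≤ E0 * x := by positivity
    rw [hN, Nat.cast_max]
    apply max_le
    · push_cast
      nlinarith
    · nlinarith
  refine ⟨n, N, hSc, hnN, hN2, hn1, hNle, ?_⟩
  intro j hj
  have harmN : arm p N ≤ (3 * C + 1) * (n:ℝ) ^ (-(5/48 : ℝ)) :=
    (arm_anti p.2.1 p.2.2 hnN).trans (hSc.arm n hSc.n1 le_rfl)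
  have hmain : (bondLaw p).real (ArmE (2 * (2^j * N)) ∩ {ω | (cluster0 ω).Finite}) ≤
      arm p N * (1/4)^(2^j) := by
    rcases lt_or_gt_of_ne hp with h | h
    · apply tail_lo p hN2 _ hj
      apply hfar (1 - (p:ℝ)) (by linarith) (by linarith [p.2.1])
      have e : 1 - (p:ℝ) - 1/2 = s := by rw [hs, abs_of_neg (by linarith)]; ring
      rw [e, ← hx]
      exact hNE
    · apply tail_hi p hN2
      apply hfar p h p.2.2
      have e : (p:ℝ) - 1/2 = s := by rw [hs, abs_of_pos (by linarith)]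
      rw [e, ← hx]
      exact hNE
  exact hmain.trans (mul_le_mul_of_nonneg_right harmN (by positivity))

end Pool.Agent.Helper859_AM
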