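import Pool.Agent.Helper859_AM.Mom

/-!
Bond percolation on `ℤ²`: the moment bound in the near-critical window, with explicit powers.
-/

set_option maxHeartbeats 1000000

namespace Pool.Agent.Helper859_AM

open H31K H974 Finset
open Pool.Agent.H160R2.CV (nv bx sum_bx sum_bx_shift)
open Pool.Agent.W424.NC (tau_ge)

theorem pow_cmp {x y c e : ℝ} (hx : 0 < x) (hy : 0 < y) (hc : 1 ≤ c) (h : y ≤ c * x)
    (he0 : 0 ≤ e) (he1 : e ≤ 1) : x ^ (-e) ≤ c * y ^ (-e) := by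
  have hc0 : 0 < c := by linarith
  have h1 : (c * x) ^ (-e) ≤ y ^ (-e) := Real.rpow_le_rpow_of_nonpos hy h (by linarith)
  rw [Real.mul_rpow hc0.le hx.le, Real.rpow_neg hc0.le] at h1
  have h2 : 0 < c ^ e := Real.rpow_pos_of_pos hc0 _
  have h3 : c ^ e ≤ c := by
    calc c ^ e ≤ c ^ (1:ℝ) := Real.rpow_le_rpow_of_exponent_le hc he1
      _ = c := Real.rpow_one c
  rw [inv_mul_le_iff₀ h2] at h1
  have h4 : 0 ≤ y ^ (-e) := Real.rpow_nonneg hy.le _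
  exact h1.trans (mul_le_mul_of_nonneg_right h3 h4)

/-- The truncated distance. -/
def rho (n d : ℕ) : ℕ := max 1 (min d n)

theorem rho_pos (n d : ℕ) : 1 ≤ rho n d := le_max_left _ _

theorem sum_rho {n M : ℕ} (hn : 1 ≤ n) (hM : n ≤ M) {e : ℝ} (he0 : 0 ≤ e) (he1 : e ≤ 1)
    {L : ℕ} (hL : L ≤ 2 * M) :
    ∑ k ∈ range (L + 1), ((k:ℝ) + 1) * (rho n k : ℝ) ^ (-e) ≤ 9 * ((M:ℝ) ^ 2 * (n:ℝ) ^ (-e)) := by
  have hn0 : (0:ℝ) < n := by exact_mod_cast hn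
  have hMr : (1:ℝ) ≤ M := by exact_mod_cast hn.trans hM
  have hnM : (n:ℝ) ≤ M := by exact_mod_cast hM
  have hp : 0 < (n:ℝ) ^ (-e) := Real.rpow_pos_of_pos hn0 _
  have hterm : ∀ k ∈ range (L + 1), ((k:ℝ) + 1) * (rho n k : ℝ) ^ (-e) ≤
      3 * ((M:ℝ) * (n:ℝ) ^ (-e)) := by
    intro k hk
    rw [Finset.mem_range] at hk
    have hk2 : k ≤ 2 * M := by omega
    rcases le_or_gt k n with hkn | hkn
    · have hr : rho n k = max 1 k := by unfold rho; rw [min_eq_left hkn]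
      have hr1 : (1:ℝ) ≤ (rho n k : ℝ) := by exact_mod_cast rho_pos n k
      have hr0 : (0:ℝ) < (rho n k : ℝ) := by linarith
      have hk1 : (k:ℝ) + 1 ≤ 2 * (rho n k : ℝ) := by
        have : k + 1 ≤ 2 * rho n k := by rw [hr]; omega
        exact_mod_cast this
      have hrn : (rho n k : ℝ) ≤ n := by
        have : rho n k ≤ n := by rw [hr]; omega
        exact_mod_cast this
      have e1 : (rho n k : ℝ) * (rho n k : ℝ) ^ (-e) = (rho n k : ℝ) ^ (1 - e) := by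
        nth_rewrite 1 [← Real.rpow_one (rho n k : ℝ)]
        rw [← Real.rpow_add hr0]
        congr 1
      have e2 : (n : ℝ) * (n : ℝ) ^ (-e) = (n : ℝ) ^ (1 - e) := by
        nth_rewrite 1 [← Real.rpow_one (n : ℝ)]
        rw [← Real.rpow_add hn0]
        congr 1
      have hq : 0 ≤ (rho n k : ℝ) ^ (-e) := Real.rpow_nonneg hr0.le _
      calc ((k:ℝ) + 1) * (rho n k : ℝ) ^ (-e) ≤ 2 * (rho n k : ℝ) * (rho n k : ℝ) ^ (-e) :=
            mul_le_mul_of_nonneg_right hk1 hq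
        _ = 2 * (rho n k : ℝ) ^ (1 - e) := by rw [mul_assoc, e1]
        _ ≤ 2 * (n:ℝ) ^ (1 - e) := by
            apply mul_le_mul_of_nonneg_left _ (by norm_num)
            exact Real.rpow_le_rpow hr0.le hrn (by linarith)
        _ = 2 * (n * (n:ℝ) ^ (-e)) := by rw [e2]
        _ ≤ 3 * ((M:ℝ) * (n:ℝ) ^ (-e)) := by
            have h3 := mul_le_mul_of_nonneg_right hnM hp.le
            have h4 : 0 ≤ (M:ℝ) * (n:ℝ) ^ (-e) := by positivity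
            linarith
    · have hr : rho n k = n := by
        unfold rho
        rw [min_eq_right hkn.le]
        exact max_eq_right hn
      rw [hr]
      have h3 : (k:ℝ) + 1 ≤ 3 * M := by
        have : k + 1 ≤ 3 * M := by omega
        exact_mod_cast this
      calc ((k:ℝ) + 1) * (n : ℝ) ^ (-e) ≤ (3 * M) * (n:ℝ) ^ (-e) :=
            mul_le_mul_of_nonneg_right h3 hp.le
        _ = _ := by ring
  refine (Finset.sum_le_sum hterm).trans ?_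
  rw [Finset.sum_const, Finset.card_range, nsmul_eq_mul]
  have h5 : ((L + 1 : ℕ) : ℝ) ≤ 3 * M := by
    have : L + 1 ≤ 3 * M := by omega
    exact_mod_cast this
  calc ((L + 1 : ℕ) : ℝ) * (3 * ((M:ℝ) * (n:ℝ) ^ (-e))) ≤
        (3 * M) * (3 * ((M:ℝ) * (n:ℝ) ^ (-e))) := mul_le_mul_of_nonneg_right h5 (by positivity)
    _ = _ := by ring

/-- The properties of a scale in the near-critical window. -/
structure Sc (p : unitInterval) (κ C0 : ℝ) (n : ℕ) : Prop where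
  n1 : 1 ≤ n
  kpos : 0 < κ
  cpos : 0 < C0
  win : 2 ≤ n → H12S.Win p κ n
  arm : ∀ m : ℕ, 1 ≤ m → m ≤ n → arm p m ≤ C0 * (m:ℝ) ^ (-(5/48 : ℝ))

theorem Sc.K1 {κ C0 : ℝ} {n : ℕ} (hC0 : 0 < C0) (hκ : 0 < κ) (hn : 1 ≤ n) (d : ℕ)
    (hd : min d n / 8 = 0) : 1 ≤ (8 + 4 * C0 / κ^4) * (rho n d : ℝ) ^ (-(5/48 : ℝ)) := by
  have h1 : rho n d ≤ 8 := by unfold rho; omega
  have h2 : (1:ℝ) ≤ (rho n d : ℝ) := by exact_mod_cast rho_pos n d
  have h3 : (rho n d : ℝ) ≤ 8 * 1 := by rw [mul_one]; exact_mod_cast h1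
  have h4 := pow_cmp (x := 1) (y := (rho n d : ℝ)) (c := 8) (e := 5/48) one_pos (by linarith)
    (by norm_num) h3 (by norm_num) (by norm_num)
  rw [Real.one_rpow] at h4
  have h5 : 0 ≤ (rho n d : ℝ) ^ (-(5/48 : ℝ)) := by positivity
  have h6 : 0 ≤ 4 * C0 / κ^4 * (rho n d : ℝ) ^ (-(5/48 : ℝ)) := by positivity
  nlinarith

theorem Sc.K2 {p : unitInterval} {κ C0 : ℝ} {n : ℕ} (h : Sc p κ C0 n) (d : ℕ)
    (hd : 1 ≤ min d n / 8) : H974.arm p (4 * (min d n / 8)) ≤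
      κ^4 * ((8 + 4 * C0 / κ^4) * (rho n d : ℝ) ^ (-(5/48 : ℝ))) := by
  obtain ⟨r, hr⟩ : ∃ r : ℕ, r = min d n / 8 := ⟨_, rfl⟩
  rw [← hr] at hd ⊢
  have hκ := h.kpos
  have hC := h.cpos
  have h1 := h.arm (4 * r) (by omega) (by omega)
  have h2 : rho n d ≤ 4 * (4 * r) := by unfold rho; omega
  have h3 : (0:ℝ) < ((4 * r : ℕ) : ℝ) := by exact_mod_cast (by omega : 0 < 4 * r)
  have h4 : (1:ℝ) ≤ (rho n d : ℝ) := by exact_mod_cast rho_pos n d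
  have h5 : (rho n d : ℝ) ≤ 4 * ((4 * r : ℕ) : ℝ) := by exact_mod_cast h2
  have h6 := pow_cmp (x := ((4 * r : ℕ) : ℝ)) (y := (rho n d : ℝ)) (c := 4) (e := 5/48) h3
    (by linarith) (by norm_num) h5 (by norm_num) (by norm_num)
  have h7 : 0 ≤ (rho n d : ℝ) ^ (-(5/48 : ℝ)) := by positivity
  calc H974.arm p (4 * r) ≤ C0 * ((4 * r : ℕ) : ℝ) ^ (-(5/48 : ℝ)) := h1
    _ ≤ C0 * (4 * (rho n d : ℝ) ^ (-(5/48 : ℝ))) := mul_le_mul_of_nonneg_left h6 hC.le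
    _ = κ^4 * (4 * C0 / κ^4 * (rho n d : ℝ) ^ (-(5/48 : ℝ))) := by field_simp
    _ ≤ _ := by
        apply mul_le_mul_of_nonneg_left _ (by positivity)
        nlinarith

theorem Sc.tau {p : unitInterval} {κ C0 : ℝ} {n : ℕ} (h : Sc p κ C0 n) (x : Vtx) :
    tau p x ≤ (8 * C0^2 + 4) * (rho n (nv x) : ℝ) ^ (-(5/24 : ℝ)) := by
  obtain ⟨d, hd⟩ : ∃ d : ℕ, d = nv x := ⟨_, rfl⟩
  rw [← hd]
  have hn := h.n1
  have hC := h.cpos
  have hρ1 : (1:ℝ) ≤ (rho n d : ℝ) := by exact_mod_cast rho_pos n d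
  have hp0 : 0 ≤ (rho n d : ℝ) ^ (-(5/24 : ℝ)) := by positivity
  obtain ⟨r, hr⟩ : ∃ r : ℕ, r = min d n / 4 := ⟨_, rfl⟩
  rcases Nat.eq_zero_or_pos r with hr0 | hr1
  · have h1 : rho n d ≤ 4 := by unfold rho; omega
    have h3 : (rho n d : ℝ) ≤ 4 * 1 := by rw [mul_one]; exact_mod_cast h1
    have h4 := pow_cmp (x := 1) (y := (rho n d : ℝ)) (c := 4) (e := 5/24) one_pos (by linarith)
      (by norm_num) h3 (by norm_num) (by norm_num)
    rw [Real.one_rpow] at h4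
    have h5 := H31K.tau_le_one p x
    have h6 : 0 ≤ 8 * C0^2 * (rho n d : ℝ) ^ (-(5/24 : ℝ)) := by positivity
    nlinarith
  · have hx : 2 * (r:ℤ) < |x.1| ∨ 2 * (r:ℤ) < |x.2| := by
      have h1 : 4 * r ≤ nv x := by rw [← hd, hr]; omega
      unfold nv at h1
      rw [Int.abs_eq_natAbs, Int.abs_eq_natAbs]
      rcases le_max_iff.mp h1 with h2 | h2
      · left; omega
      · right; omega
    have h1 := H31K.tau_le_arm_sq p hx
    have h2 := h.arm r hr1 (by omega)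
    have h3 := pow_le_pow_left₀ (arm_nonneg p.2.1 p.2.2 r) h2 2
    have hr0' : (0:ℝ) < r := by exact_mod_cast hr1
    have h4 : (C0 * (r:ℝ) ^ (-(5/48 : ℝ)))^2 = C0^2 * (r:ℝ) ^ (-(5/24 : ℝ)) := by
      rw [mul_pow, ← Real.rpow_natCast ((r:ℝ) ^ (-(5/48 : ℝ))), ← Real.rpow_mul hr0'.le]
      norm_num
    have h5 : rho n d ≤ 8 * r := by unfold rho; omega
    have h6 := pow_cmp (x := (r : ℝ)) (y := (rho n d : ℝ)) (c := 8) (e := 5/24) hr0'
      (by linarith) (by norm_num) (by exact_mod_cast h5) (by norm_num) (by norm_num)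
    rw [h4] at h3
    calc H31K.tau p x ≤ C0^2 * (r:ℝ) ^ (-(5/24 : ℝ)) := h1.trans h3
      _ ≤ C0^2 * (8 * (rho n d : ℝ) ^ (-(5/24 : ℝ))) := mul_le_mul_of_nonneg_left h6 (by positivity)
      _ ≤ _ := by nlinarith

/-- The moments of the number of points connected to the origin in a box. -/
theorem box_mom {p : unitInterval} {κ C0 : ℝ} {n : ℕ} (h : Sc p κ C0 n) {M : ℕ} (hM : n ≤ M)
    (k : ℕ) {S : Finset Edg} (hS : boxE (M + n) ⊆ S) :
    Ex (fun _ => (p:ℝ)) S (fun F => XD (bx M) F ^ (k + 1)) ≤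
      (72 * (8 + 4 * C0 / κ^4) * (1 + k)) ^ k * (72 * (8 * C0^2 + 4)) *
        ((M:ℝ) ^ (2 * (k + 1)) * (n:ℝ) ^ (-(5/48 * (k + 2)) : ℝ)) := by
  have hκ := h.kpos
  have hC := h.cpos
  have hn := h.n1
  have hn0 : (0:ℝ) < n := by exact_mod_cast hn
  have hM0 : (0:ℝ) < M := by exact_mod_cast (by omega : 0 < M)
  obtain ⟨C1, hC1⟩ : ∃ C1 : ℝ, C1 = 8 + 4 * C0 / κ^4 := ⟨_, rfl⟩
  have hC10 : 0 < C1 := by rw [hC1]; positivity
  obtain ⟨K, hK⟩ : ∃ K : ℕ → ℝ, K = fun d => C1 * (rho n d : ℝ) ^ (-(5/48 : ℝ)) := ⟨_, rfl⟩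
  have hKd : ∀ d, K d = C1 * (rho n d : ℝ) ^ (-(5/48 : ℝ)) := fun d => by rw [hK]
  have hK0 : ∀ d, 0 ≤ K d := fun d => by rw [hKd]; positivity
  obtain ⟨A, hA⟩ : ∃ A : ℝ, A = 72 * C1 * ((M:ℝ)^2 * (n:ℝ) ^ (-(5/48 : ℝ))) := ⟨_, rfl⟩
  have hA0 : 0 ≤ A := by rw [hA]; positivity
  have hsumK : 8 * ∑ k ∈ range (2 * M + 1), ((k:ℝ) + 1) * K k ≤ A := by
    have h1 := sum_rho hn hM (e := 5/48) (by norm_num) (by norm_num) (L := 2 * M) le_rfl
    have e : ∑ k ∈ range (2 * M + 1), ((k:ℝ) + 1) * K k =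
        C1 * ∑ k ∈ range (2 * M + 1), ((k:ℝ) + 1) * (rho n k : ℝ) ^ (-(5/48 : ℝ)) := by
      rw [Finset.mul_sum]
      apply Finset.sum_congr rfl
      intro k _
      rw [hKd]; ring
    rw [e, hA]
    have h2 := mul_le_mul_of_nonneg_left h1 hC10.le
    linarith
  have hadd : ∀ V : Finset Vtx, ∀ x ∈ bx M, Pr (fun _ => (p:ℝ)) S (TV (insert x V)) ≤
      (∑ v ∈ insert ((0, 0) : Vtx) V, K (nv (x - v))) * Pr (fun _ => (p:ℝ)) S (TV V) := by
    intro V x hx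
    apply add_K p.2.1 p.2.2 hκ h.win hK0
    · intro d hd
      rw [hKd, hC1]
      exact Sc.K1 hC hκ hn d hd
    · intro d hd
      rw [hKd, hC1]
      exact h.K2 d hd
    · refine (boxE_mono ?_).trans hS
      have := Pool.Agent.H160R2.CV.ratio_nv_le hx
      omega
  have hAv : ∀ v ∈ insert ((0, 0) : Vtx) (bx M), ∑ x ∈ bx M, K (nv (x - v)) ≤ A := by
    intro v hv
    have hv' : v ∈ bx M := by
      rcases Finset.mem_insert.mp hv with h1 | h1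
      · rw [h1]
        unfold bx
        rw [Finset.mem_product, Finset.mem_Icc]
        simp only
        omega
      · exact h1
    exact (sum_bx_shift M v hv' K hK0).trans hsumK
  have hmain := mom_bound (q := (p:ℝ)) p.2.1 p.2.2 hA0 hadd hAv k
  have htau : ∑ x ∈ bx M, Pr (fun _ => (p:ℝ)) S (TP x) ≤
      72 * (8 * C0^2 + 4) * ((M:ℝ)^2 * (n:ℝ) ^ (-(5/24 : ℝ))) := by
    have h1 : ∀ x ∈ bx M, Pr (fun _ => (p:ℝ)) S (TP x) ≤
        (fun d : ℕ => (8 * C0^2 + 4) * (rho n d : ℝ) ^ (-(5/24 : ℝ))) (nv x) :=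
      fun x _ => (tau_ge p S x).trans (h.tau x)
    refine (Finset.sum_le_sum h1).trans ?_
    refine (sum_bx M (fun d : ℕ => (8 * C0^2 + 4) * (rho n d : ℝ) ^ (-(5/24 : ℝ)))
      (fun d => by positivity)).trans ?_
    have h2 := sum_rho hn hM (e := 5/24) (by norm_num) (by norm_num) (L := M) (by omega)
    have e : ∑ k ∈ range (M + 1), ((k:ℝ) + 1) * ((8 * C0^2 + 4) * (rho n k : ℝ) ^ (-(5/24 : ℝ))) =
        (8 * C0^2 + 4) * ∑ k ∈ range (M + 1), ((k:ℝ) + 1) * (rho n k : ℝ) ^ (-(5/24 : ℝ)) := by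
      rw [Finset.mul_sum]
      apply Finset.sum_congr rfl
      intro k _
      ring
    rw [e]
    have h3 := mul_le_mul_of_nonneg_left h2 (show 0 ≤ 8 * C0^2 + 4 by positivity)
    linarith
  refine hmain.trans ?_
  refine (mul_le_mul_of_nonneg_left htau (by positivity)).trans (le_of_eq ?_)
  rw [← hC1, hA]
  have e1 : (n:ℝ) ^ (-(5/48 * (k + 2)) : ℝ) =
      ((n:ℝ) ^ (-(5/48 : ℝ))) ^ k * (n:ℝ) ^ (-(5/24 : ℝ)) := by
    rw [← Real.rpow_natCast ((n:ℝ) ^ (-(5/48 : ℝ))), ← Real.rpow_mul hn0.le, ← Real.rpow_add hn0]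
    congr 1
    ring
  rw [e1]
  have e2 : (M:ℝ) ^ (2 * (k + 1)) = ((M:ℝ)^2)^k * (M:ℝ)^2 := by
    rw [pow_mul, pow_succ]
  rw [e2]
  have e3 : 72 * C1 * ((M:ℝ)^2 * (n:ℝ) ^ (-(5/48 : ℝ))) * (1 + k) =
      (72 * C1 * (1 + k)) * ((M:ℝ)^2) * ((n:ℝ) ^ (-(5/48 : ℝ))) := by ring
  rw [e3, mul_pow, mul_pow]
  ring

end Pool.Agent.Helper859_AM
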